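import Mathlib

set_option autoImplicit false

/-! Small trees given by parent lists. -/

namespace Pool.Agent.SA97

/-- Adjacency in the tree in which vertex `b ≥ 1` has parent `p[b]` (the entry `p[0]` is not
used). -/
def padj (p : List ℕ) (a b : ℕ) : Bool :=
  (Nat.blt a b && Nat.beq (p.getD b 0) a) || (Nat.blt b a && Nat.beq (p.getD a 0) b)

theorem padj_comm (p : List ℕ) (a b : ℕ) : padj p a b = padj p b a := by
  unfold padj; exact Bool.or_comm _ _

theorem padj_self (p : List ℕ) (a : ℕ) : padj p a a = false := by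
  unfold padj
  have : Nat.blt a a = false := by
    rw [Bool.eq_false_iff]
    intro h
    exact absurd (Nat.le_of_ble_eq_true h) (by omega)
  simp [this]

/-- The tree on `Fin n` with parent list `p`. -/
def tree (n : ℕ) (p : List ℕ) : SimpleGraph (Fin n) where
  Adj a b := padj p a b = true
  symm := ⟨fun a b h => by rw [padj_comm]; exact h⟩
  loopless := ⟨fun a h => by rw [padj_self] at h; exact absurd h (by decide)⟩

instance (n : ℕ) (p : List ℕ) : DecidableRel (tree n p).Adj := fun a b => by
  unfold tree; infer_instance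

/-- root 0, leaf 1, path 0 - 2 - 3 -/
abbrev B21 : SimpleGraph (Fin 4) := tree 4 [0, 0, 0, 2]

/-- root 0, leaf 1, path 0 - 2 - 3 - 4 -/
abbrev B31 : SimpleGraph (Fin 5) := tree 5 [0, 0, 0, 2, 3]

/-- root 0, paths 0 - 1 - 3 and 0 - 2 - 4 -/
abbrev B22 : SimpleGraph (Fin 5) := tree 5 [0, 0, 0, 1, 2]

/-- An embedding of a small graph from a table. -/
theorem embed_of {n : ℕ} (S : SimpleGraph (Fin n)) {V : Type*} (G : SimpleGraph V) (v : Fin n → V)
    (hadj : ∀ a b, a < b → (G.Adj (v a) (v b) ↔ S.Adj a b))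
    (hne : ∀ a b, a < b → v a ≠ v b) : ∃ φ : S ↪g G, ∀ a, φ a = v a := by
  refine ⟨⟨⟨v, ?_⟩, ?_⟩, fun a => rfl⟩
  · intro a b hab
    rcases lt_trichotomy a b with h | h | h
    · exact absurd hab (hne a b h)
    · exact h
    · exact absurd hab.symm (hne b a h)
  · intro a b
    change G.Adj (v a) (v b) ↔ S.Adj a b
    rcases lt_trichotomy a b with h | h | h
    · exact hadj a b h
    · subst h
      exact ⟨fun h => absurd h (G.loopless.irrefl _), fun h => absurd h (S.loopless.irrefl _)⟩
    · rw [G.adj_comm, S.adj_comm]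
      exact hadj b a h

end Pool.Agent.SA97
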