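import Pool.Agent.SA33.Edge

set_option autoImplicit false

/-! FWD: in an unsplittable class, if `(S, s)` is good then so is `S` with a new root attached
to `s`. -/

namespace Pool.Agent.SA97

open SimpleGraph Pool.Agent.SA33

/-- `S` with a new vertex `none` adjacent to `s` only. -/
def fwd {σ : Type*} (S : SimpleGraph σ) (s : σ) : SimpleGraph (Option σ) where
  Adj x y := match x, y with
    | some a, some b => S.Adj a b
    | none, some b => b = s
    | some a, none => a = s
    | none, none => False
  symm := ⟨by
    rintro (_ | x) (_ | y) h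
    · exact h
    · exact h
    · exact h
    · exact h.symm⟩
  loopless := ⟨by
    rintro (_ | x) h
    · exact h
    · exact S.loopless.irrefl _ h⟩

/-- In an unsplittable class, for every member `M` there is a member `F` such that every nonempty
`K_(k-1)`-free set of vertices of `F` is touched by a copy of `M` avoiding it. -/
theorem cont {m : ℕ} {T : SimpleGraph (Fin m)} (hT : T.Connected) {k : ℕ} (hk : 3 ≤ k)
    (hns : ¬ Splittable T k) (hK : InC T k (⊤ : SimpleGraph (Fin (k - 1))))
    {W : Type*} [Finite W] [Nonempty W] (M : SimpleGraph W) (hM : InC T k M) :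
    ∃ (p : ℕ) (F : SimpleGraph (Fin p)), 0 < p ∧ InC T k F ∧
      ∀ B : Set (Fin p), B.Nonempty → F.CliqueFreeOn B (k - 1) →
        ∃ e : M ↪g F, (∀ x, e x ∉ B) ∧ ∃ b ∈ B, ∃ x, F.Adj b (e x) := by
  classical
  by_contra hcon
  push Not at hcon
  -- every member has a `K_(k-1)`-free set meeting all copies of `M`
  have key : ∀ (n : ℕ) (p : ℕ) (γ : SimpleGraph (Fin p)), InC T k γ → ∀ X : Finset (Fin p),
      X.card = n → ∃ Q : Set (Fin p), Q ⊆ X ∧ γ.CliqueFreeOn Q (k - 1) ∧
        ∀ e : M ↪g γ, (∀ x, e x ∈ X) → ∃ x, e x ∈ Q := by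
    intro n
    induction n using Nat.strong_induction_on with
    | _ n ih =>
      intro p γ hγ X hX
      rcases Nat.eq_zero_or_pos n with h0 | hpos
      · have hX0 : X = ∅ := Finset.card_eq_zero.1 (hX.trans h0)
        refine ⟨∅, Set.empty_subset _, ?_, ?_⟩
        · intro t ht hc
          have h1 : t = ∅ := by
            apply Finset.coe_eq_empty.1
            exact Set.subset_empty_iff.1 ht
          have h2 := hc.2
          rw [h1, Finset.card_empty] at h2
          omega
        · intro e he
          obtain ⟨w⟩ := ‹Nonempty W›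
          have := he w
          rw [hX0] at this
          exact absurd this (Finset.notMem_empty _)
      · -- the induced subgraph on X
        have hcard : Fintype.card X = n := by rw [Fintype.card_coe, hX]
        let eX : Fin n ≃ X := (Fintype.equivFinOfCardEq hcard).symm
        let F : SimpleGraph (Fin n) := γ.comap (fun i => ((eX i : X) : Fin p))
        have hinj : Function.Injective (fun i => ((eX i : X) : Fin p)) :=
          Subtype.val_injective.comp eX.injective
        let ι : F ↪g γ := ⟨⟨fun i => ((eX i : X) : Fin p), hinj⟩, by intro a b; rfl⟩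
        have hF : InC T k F := hγ.comap ι
        obtain ⟨B, hB, hBf, hBe⟩ := hcon n F hpos hF
        -- transport B
        let B' : Set (Fin p) := ι '' B
        let X' : Finset (Fin p) := X.filter (fun x => x ∉ B' ∧ ∀ b ∈ B', ¬ γ.Adj b x)
        have hX'X : X' ⊆ X := Finset.filter_subset _ _
        have hX'card : X'.card < n := by
          rw [← hX]
          apply Finset.card_lt_card
          refine ⟨hX'X, fun h => ?_⟩
          obtain ⟨b, hb⟩ := hB
          have h1 : ι b ∈ X := (eX b).2
          have h2 := h h1
          rw [Finset.mem_filter] at h2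
          exact h2.2.1 ⟨b, hb, rfl⟩
        obtain ⟨Q, hQX, hQf, hQe⟩ := ih _ hX'card p γ hγ X' rfl
        refine ⟨B' ∪ Q, ?_, ?_, ?_⟩
        · rintro x (⟨b, hb, rfl⟩ | hx)
          · exact (eX b).2
          · exact hX'X (hQX hx)
        · intro t ht hc
          -- the clique meets only one of the two sides
          by_cases hm : ∃ b ∈ t, b ∈ B'
          · obtain ⟨b, hbt, hbB⟩ := hm
            have hall : ∀ x ∈ t, x ∈ B' := by
              intro x hx
              rcases ht hx with h1 | h1
              · exact h1
              · exfalso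
                have h2 := hQX h1
                rw [Finset.mem_coe, Finset.mem_filter] at h2
                have hne : b ≠ x := fun h => h2.2.1 (h ▸ hbB)
                exact h2.2.2 b hbB (hc.1 hbt hx hne)
            apply hBf (t := t.preimage ι ι.injective.injOn)
            · intro x hx
              rw [Finset.coe_preimage] at hx
              obtain ⟨y, hy, hyx⟩ := hall _ hx
              rwa [← ι.injective hyx]
            · constructor
              · intro x hx y hy hxy
                rw [Finset.coe_preimage] at hx hy
                exact ι.map_adj_iff.1 (hc.1 hx hy (fun h => hxy (ι.injective h)))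
              · rw [← hc.2]
                rw [← Finset.card_image_of_injective _ ι.injective]
                congr 1
                ext x
                simp only [Finset.mem_image, Finset.mem_preimage]
                constructor
                · rintro ⟨y, hy, rfl⟩; exact hy
                · intro hx
                  obtain ⟨y, hy, hyx⟩ := hall x hx
                  exact ⟨y, hyx ▸ hx, hyx⟩
          · push Not at hm
            apply hQf (t := t) _ hc
            intro x hx
            rcases ht hx with h1 | h1
            · exact absurd h1 (hm x hx)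
            · exact h1
        · intro e he
          by_contra hno
          push Not at hno
          have hno1 : ∀ x, e x ∉ B' := fun x h => hno x (Or.inl h)
          have hno2 : ∀ x, e x ∉ Q := fun x h => hno x (Or.inr h)
          -- e factors through F
          have hlift : ∀ x, ∃ i, ι i = e x := fun x =>
            ⟨eX.symm ⟨e x, he x⟩, by simp [ι]⟩
          choose g hg using hlift
          let e' : M ↪g F := ⟨⟨g, fun a b h => e.injective (by rw [← hg, ← hg, h])⟩, by
            intro a b
            change F.Adj (g a) (g b) ↔ M.Adj a b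
            rw [← ι.map_adj_iff, hg, hg, e.map_adj_iff]⟩
          have h1 : ∀ x, e' x ∉ B := fun x hx => hno1 x ⟨g x, hx, hg x⟩
          have h2 := hBe e' h1
          -- so e lies in X'
          have h3 : ∀ x, e x ∈ X' := by
            intro x
            rw [Finset.mem_filter]
            refine ⟨he x, hno1 x, ?_⟩
            rintro _ ⟨b, hb, rfl⟩ hadj
            apply h2 b hb x
            rw [← hg, ι.map_adj_iff] at hadj
            exact hadj
          obtain ⟨x, hx⟩ := hQe e h3
          exact hno2 x hx
  obtain ⟨p, γ, hγ, harr⟩ := exists_arrow hns (M ⊕g (⊤ : SimpleGraph (Fin (k - 1))))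
    (hM.sum hT (by omega) hK) Bool
  obtain ⟨Q, -, hQf, hQe⟩ := key _ p γ hγ Finset.univ rfl
  obtain ⟨e, he⟩ := harr (fun x => decide (x ∈ Q))
  let eM : M ↪g γ := SimpleGraph.Embedding.sumInl.trans e
  let eK : (⊤ : SimpleGraph (Fin (k - 1))) ↪g γ := SimpleGraph.Embedding.sumInr.trans e
  obtain ⟨x, hx⟩ := hQe eM (fun _ => Finset.mem_univ _)
  have hall : ∀ y, eK y ∈ Q := by
    intro y
    have h1 := he (Sum.inl x) (Sum.inr y)
    have h2 : decide (e (Sum.inl x) ∈ Q) = true := by
      rw [decide_eq_true_iff]; exact hx
    have h3 : decide (e (Sum.inr y) ∈ Q) = true := by rw [← h1]; exact h2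
    rw [decide_eq_true_iff] at h3
    exact h3
  apply hQf (t := Finset.univ.map eK.toEmbedding)
  · intro z hz
    rw [Finset.coe_map] at hz
    obtain ⟨y, -, rfl⟩ := hz
    exact hall y
  · constructor
    · intro a ha b hb hab
      rw [Finset.coe_map] at ha hb
      obtain ⟨a, -, rfl⟩ := ha
      obtain ⟨b, -, rfl⟩ := hb
      have hne : a ≠ b := fun h => hab (by rw [h])
      exact eK.map_adj_iff.2 hne
    · rw [Finset.card_map, Finset.card_univ, Fintype.card_fin]

/-- FWD. -/
theorem good_fwd {m : ℕ} {T : SimpleGraph (Fin m)} (hT : T.Connected) {k : ℕ} (hk : 3 ≤ k)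
    (hns : ¬ Splittable T k) (hK : InC T k (⊤ : SimpleGraph (Fin (k - 1))))
    {σ : Type*} {S : SimpleGraph σ} {s : σ} (hS : Good T k S s) :
    Good T k (fwd S s) none := by
  classical
  obtain ⟨n, M, hn, hM, hr⟩ := hS
  have : Nonempty (Fin n) := ⟨⟨0, hn⟩⟩
  obtain ⟨p, F, hp, hF, hFr⟩ := cont hT hk hns hK M hM
  refine ⟨p, F, hp, hF, ?_⟩
  intro B hB hBf
  obtain ⟨e, heB, b, hb, x0, hx0⟩ := hFr B hB hBf
  let P : Set (Fin n) := {x | F.Adj b (e x)}
  have hPf : M.CliqueFreeOn P (k - 1) := by
    intro t ht hc
    have hfree : F.CliqueFree k := by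
      by_contra hcf
      exact hF.2.false (SimpleGraph.topEmbeddingOfNotCliqueFree hcf)
    have h1 : F.IsNClique (k - 1) (t.map e.toEmbedding) := by
      constructor
      · intro x hx y hy hxy
        rw [Finset.coe_map] at hx hy
        obtain ⟨x, hx, rfl⟩ := hx
        obtain ⟨y, hy, rfl⟩ := hy
        exact e.map_adj_iff.2 (hc.1 hx hy (fun h => hxy (by rw [h])))
      · rw [Finset.card_map]; exact hc.2
    have h2 := h1.insert (a := b) (by
      intro y hy
      rw [Finset.mem_map] at hy
      obtain ⟨x, hx, rfl⟩ := hy
      exact ht hx)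
    rw [Nat.sub_add_cancel (by omega)] at h2
    exact hfree _ h2
  obtain ⟨φ, hφs, hφ⟩ := hr P ⟨x0, hx0⟩ hPf
  let f : Option σ → Fin p := fun o => o.elim b (fun x => e (φ x))
  have hadj : ∀ x, F.Adj b (e (φ x)) ↔ x = s := fun x =>
    ⟨fun h => by by_contra hne; exact hφ x hne h, fun h => by rw [h]; exact hφs⟩
  have hbe : ∀ x, b ≠ e x := fun x h => heB x (h ▸ hb)
  refine ⟨⟨⟨f, ?_⟩, ?_⟩, hb, ?_⟩
  · rintro (_ | x) (_ | y) h
    · rfl
    · exact absurd h (hbe _)
    · exact absurd h.symm (hbe _)
    · exact congrArg some (φ.injective (e.injective h))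
  · rintro (_ | x) (_ | y)
    · exact ⟨fun h => absurd h (F.loopless.irrefl _), fun h => h.elim⟩
    · exact hadj y
    · exact ⟨fun h => (hadj x).1 h.symm, fun h => ((hadj x).2 h).symm⟩
    · exact (e.map_adj_iff).trans φ.map_adj_iff
  · rintro (_ | x) hx
    · exact absurd rfl hx
    · exact heB _

/-- A single vertex is good as soon as the class contains a nonempty graph. -/
theorem good_point {m : ℕ} {T : SimpleGraph (Fin m)} {k : ℕ}
    {n : ℕ} (hn : 0 < n) {G : SimpleGraph (Fin n)} (hG : InC T k G) :
    Good T k (⊥ : SimpleGraph Unit) () := by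
  refine ⟨n, G, hn, hG, ?_⟩
  rintro B ⟨b, hb⟩ -
  refine ⟨⟨⟨fun _ => b, fun _ _ _ => rfl⟩, ?_⟩, hb, fun x hx => absurd rfl hx⟩
  intro x y
  exact ⟨fun h => absurd h (G.loopless.irrefl _), fun h => h.elim⟩

end Pool.Agent.SA97
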