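import Mathlib

set_option autoImplicit false

/-! The classes: `ZMod n` with the far relation (complement of the cycle). -/

namespace Pool.Agent.SA97

/-- `a` and `b` are at distance at least two on the cycle `ZMod n`. -/
def Far {n : ℕ} (a b : ZMod n) : Prop := a ≠ b ∧ a ≠ b + 1 ∧ b ≠ a + 1

instance {n : ℕ} (a b : ZMod n) : Decidable (Far a b) := by unfold Far; infer_instance

theorem Far.symm {n : ℕ} {a b : ZMod n} (h : Far a b) : Far b a := ⟨h.1.symm, h.2.2, h.2.1⟩

theorem Far.ne {n : ℕ} {a b : ZMod n} (h : Far a b) : a ≠ b := h.1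

theorem natCast_ne_zero' {n d : ℕ} (h0 : 0 < d) (h1 : d < n) : (d : ZMod n) ≠ 0 := by
  intro h
  rw [ZMod.natCast_eq_zero_iff] at h
  exact absurd (Nat.le_of_dvd h0 h) (by omega)

theorem far_add {n : ℕ} (x : ZMod n) {d : ℕ} (h2 : 2 ≤ d) (hn : d + 2 ≤ n) :
    Far x (x + (d : ZMod n)) := by
  refine ⟨?_, ?_, ?_⟩
  · intro h
    have h1 : (d : ZMod n) = 0 := by
      have := congrArg (fun y => y - x) h
      simpa using this.symm
    exact natCast_ne_zero' (by omega) (by omega) h1
  · intro h
    have h1 : ((d + 1 : ℕ) : ZMod n) = 0 := by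
      push_cast
      have := congrArg (fun y => y - x) h
      simp only [sub_self] at this
      rw [this]; ring
    exact natCast_ne_zero' (by omega) (by omega) h1
  · intro h
    have h1 : ((d - 1 : ℕ) : ZMod n) = 0 := by
      rw [Nat.cast_sub (by omega)]
      have h3 := congrArg (fun y => y - x - 1) h
      have e1 : x + (d : ZMod n) - x - 1 = (d : ZMod n) - 1 := by ring
      have e2 : x + 1 - x - 1 = (0 : ZMod n) := by ring
      simp only [e1, e2] at h3
      simpa using h3
    exact natCast_ne_zero' (by omega) (by omega) h1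

theorem not_far_succ {n : ℕ} (x : ZMod n) : ¬ Far x (x + 1) := fun h => h.2.2 rfl

theorem not_far_self {n : ℕ} (x : ZMod n) : ¬ Far x x := fun h => h.1 rfl

/-- Pairwise far classes: at most `n / 2` of them. -/
theorem far_card {n : ℕ} [NeZero n] (s : Finset (ZMod n))
    (hs : ∀ x ∈ s, ∀ y ∈ s, x ≠ y → Far x y) (h1 : 1 < n) : 2 * s.card ≤ n := by
  classical
  have hd : Disjoint s (s.image (fun x => x + 1)) := by
    rw [Finset.disjoint_left]
    intro x hx hx'
    rw [Finset.mem_image] at hx'
    obtain ⟨y, hy, rfl⟩ := hx'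
    have hne : y + 1 ≠ y := by
      intro h
      have h2 : ((1 : ℕ) : ZMod n) = 0 := by
        have := congrArg (fun z => z - y) h
        simpa using this
      exact natCast_ne_zero' (by omega) h1 h2
    exact (hs _ hx _ hy hne).2.1 rfl
  have h2 : (s.image (fun x => x + 1)).card = s.card :=
    Finset.card_image_of_injective _ (add_left_injective 1)
  have h3 := Finset.card_le_univ (s ∪ s.image (fun x => x + 1))
  rw [Finset.card_union_of_disjoint hd, h2, ZMod.card] at h3
  omega

/-- A nonempty set of classes closed under `+ 1` is everything. -/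
theorem closed_succ {n : ℕ} [NeZero n] (F : Set (ZMod n)) (hF : F.Nonempty)
    (h : ∀ i ∈ F, i + 1 ∈ F) : ∀ x, x ∈ F := by
  obtain ⟨i, hi⟩ := hF
  have key : ∀ t : ℕ, i + (t : ZMod n) ∈ F := by
    intro t
    induction t with
    | zero => simpa using hi
    | succ t ih =>
      have := h _ ih
      rw [add_assoc] at this
      simpa using this
  intro x
  have := key (x - i).val
  rwa [ZMod.natCast_zmod_val, add_sub_cancel] at this

/-- The combinatorial heart: a nonempty set of classes without `k - 1` pairwise far ones. -/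
theorem exists_path {k : ℕ} (hk : 3 ≤ k) (F : Set (ZMod (2 * k - 1))) (hF : F.Nonempty)
    (hc : ∀ s : Finset (ZMod (2 * k - 1)), (∀ x ∈ s, x ∈ F) →
      (∀ x ∈ s, ∀ y ∈ s, x ≠ y → Far x y) → s.card < k - 1) :
    ∃ i ∈ F, i + 1 ∉ F ∧ ∃ j, j ∉ F ∧ Far i j ∧ Far (i + 1) j := by
  classical
  haveI : NeZero (2 * k - 1) := ⟨by omega⟩
  -- the clique starting at `i`
  have clique : ∀ i : ZMod (2 * k - 1), ∃ s : Finset (ZMod (2 * k - 1)), s.card = k - 1 ∧
      (∀ x ∈ s, ∀ y ∈ s, x ≠ y → Far x y) ∧ ∀ x ∈ s, x = i ∨ (Far i x ∧ Far (i + 1) x) := by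
    intro i
    let f : ℕ → ZMod (2 * k - 1) := fun t => if t = 0 then i else i + ((2 * t + 1 : ℕ) : ZMod _)
    have hfar : ∀ a b : ℕ, a < b → b < k - 1 → Far (f a) (f b) := by
      intro a b hab hb
      rcases Nat.eq_zero_or_pos a with ha | ha
      · subst ha
        have : f b = i + ((2 * b + 1 : ℕ) : ZMod (2 * k - 1)) := by
          simp only [f]; rw [if_neg (by omega)]
        rw [this]
        have h0 : f 0 = i := by simp [f]
        rw [h0]
        exact far_add _ (by omega) (by omega)
      · have h1 : f b = f a + ((2 * (b - a) : ℕ) : ZMod (2 * k - 1)) := by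
          simp only [f]
          rw [if_neg (by omega), if_neg (by omega), add_assoc, ← Nat.cast_add]
          congr 2
          omega
        rw [h1]
        exact far_add _ (by omega) (by omega)
    have hpair : ∀ a b : ℕ, a ≠ b → a < k - 1 → b < k - 1 → Far (f a) (f b) := by
      intro a b hab ha hb
      rcases Nat.lt_or_gt_of_ne hab with h | h
      · exact hfar a b h hb
      · exact (hfar b a h ha).symm
    refine ⟨(Finset.range (k - 1)).image f, ?_, ?_, ?_⟩
    · rw [Finset.card_image_of_injOn, Finset.card_range]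
      intro a ha b hb hab
      by_contra hne
      rw [Finset.coe_range, Set.mem_Iio] at ha hb
      exact (hpair a b hne ha hb).ne hab
    · intro x hx y hy hxy
      rw [Finset.mem_image] at hx hy
      obtain ⟨a, ha, rfl⟩ := hx
      obtain ⟨b, hb, rfl⟩ := hy
      rw [Finset.mem_range] at ha hb
      exact hpair a b (fun h => hxy (by rw [h])) ha hb
    · intro x hx
      rw [Finset.mem_image] at hx
      obtain ⟨a, ha, rfl⟩ := hx
      rw [Finset.mem_range] at ha
      rcases Nat.eq_zero_or_pos a with h | h
      · left; subst h; simp [f]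
      · right
        have h1 : f a = i + ((2 * a + 1 : ℕ) : ZMod (2 * k - 1)) := by
          simp only [f]; rw [if_neg (by omega)]
        refine ⟨?_, ?_⟩
        · rw [h1]; exact far_add _ (by omega) (by omega)
        · have h2 : f a = (i + 1) + ((2 * a : ℕ) : ZMod (2 * k - 1)) := by
            rw [h1]; push_cast; ring
          rw [h2]; exact far_add _ (by omega) (by omega)
  by_cases hall : ∀ i ∈ F, i + 1 ∈ F
  · exfalso
    have huniv := closed_succ F hF hall
    obtain ⟨s, hs1, hs2, -⟩ := clique 0
    have := hc s (fun x _ => huniv x) hs2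
    omega
  · push Not at hall
    obtain ⟨i, hi, hi1⟩ := hall
    refine ⟨i, hi, hi1, ?_⟩
    by_contra hcon
    push Not at hcon
    obtain ⟨s, hs1, hs2, hs3⟩ := clique i
    have := hc s (fun x hx => by
      rcases hs3 x hx with h | ⟨h1, h2⟩
      · rw [h]; exact hi
      · by_contra hx'
        exact hcon x hx' h1 h2) hs2
    omega

end Pool.Agent.SA97
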