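import Pool.Agent.SA97.Free
import Pool.Agent.SA33.Pg

set_option autoImplicit false

/-! Goodness of the small rooted trees `(2,1)`, `(2,2)`, `(3,1)` rooted at the centre. -/

namespace Pool.Agent.SA97

open SimpleGraph Pool.Agent.SA33 Eng

instance (k : ℕ) [NeZero (2 * k - 1)] :
    Finite (ZMod (2 * k - 1) × ZMod (2 * k - 1) × Fin (2 * k)) := inferInstance

/-- minimal twin-free trees which are not in the matching host: `S(2,2,2)`, `S(3,2,1)`, `P_7` -/
def patM : List (List ℕ) :=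
  [[0, 0, 0, 0, 1, 2, 3], [0, 0, 0, 0, 1, 2, 4], [0, 0, 0, 1, 2, 3, 4]]

/-- minimal twin-free trees which are not in the tensor host -/
def patR : List (List ℕ) :=
  [[0, 0, 0, 1, 1, 1, 3, 4], [0, 0, 0, 1, 1, 3, 3, 5, 6], [0, 0, 0, 1, 1, 3, 3, 5, 7],
   [0, 0, 0, 1, 1, 3, 4, 5, 6], [0, 0, 0, 1, 1, 3, 4, 5, 7], [0, 0, 0, 0, 1, 2, 4, 5, 6],
   [0, 0, 0, 1, 1, 3, 5, 6, 7], [0, 0, 0, 1, 2, 3, 4, 5, 6, 7]]

theorem patM_free {k : ℕ} (hk : 3 ≤ k) (p : List ℕ) (hp : p ∈ patM) :
    IsEmpty (tree p.length p ↪g (hostM k).graph) := by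
  fin_cases hp
  · exact free_hostM hk rfl (by decide) (chk (by decide)) (by decide +kernel)
  · exact free_hostM hk rfl (by decide) (chk (by decide)) (by decide +kernel)
  · exact free_hostM hk rfl (by decide) (chk (by decide)) (by decide +kernel)

theorem patR_free {k : ℕ} (hk : 3 ≤ k) (p : List ℕ) (hp : p ∈ patR) :
    IsEmpty (tree p.length p ↪g (hostR k).graph) := by
  fin_cases hp
  · exact free_hostR hk rfl (by decide) (chk (by decide)) (by decide +kernel)
  · exact free_hostR hk rfl (by decide) (chk (by decide)) (by decide +kernel)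
  · exact free_hostR hk rfl (by decide) (chk (by decide)) (by decide +kernel)
  · exact free_hostR hk rfl (by decide) (chk (by decide)) (by decide +kernel)
  · exact free_hostR hk rfl (by decide) (chk (by decide)) (by decide +kernel)
  · exact free_hostR hk rfl (by decide) (chk (by decide)) (by decide +kernel)
  · exact free_hostR hk rfl (by decide) (chk (by decide)) (by decide +kernel)
  · exact free_hostR hk rfl (by decide) (chk (by decide)) (by decide +kernel)

section
variable {τ : Type*} {T : SimpleGraph τ} {k : ℕ}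

/-- `(2,2)@c` is good for every tree containing one of `patM`. -/
theorem good_B22 (hk : 3 ≤ k) (h : ∃ p ∈ patM, Nonempty (tree p.length p ↪g T)) :
    Good T k B22 0 := by
  obtain ⟨p, hp, ⟨e⟩⟩ := h
  have : NeZero (2 * k - 1) := ⟨by omega⟩
  have : Nonempty (Fin (2 * k)) := ⟨⟨0, by omega⟩⟩
  refine good_of_robust (G := (hostM k).graph) ⟨⟨fun f => (patM_free hk p hp).false (e.trans f)⟩,
    (hostM k).noClique hk⟩ (hostM_robust hk)

/-- `(3,1)@c` is good for every tree containing one of `patR`. -/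
theorem good_B31 (hk : 3 ≤ k) (h : ∃ p ∈ patR, Nonempty (tree p.length p ↪g T)) :
    Good T k B31 0 := by
  obtain ⟨p, hp, ⟨e⟩⟩ := h
  have : NeZero (2 * k - 1) := ⟨by omega⟩
  have : Nonempty (Fin (3 * k)) := ⟨⟨0, by omega⟩⟩
  refine good_of_robust (G := (hostR k).graph) ⟨⟨fun f => (patR_free hk p hp).false (e.trans f)⟩,
    (hostR k).noClique hk⟩ (hostR_robust hk)

theorem good_mono {σ σ' : Type*} {S : SimpleGraph σ} {s : σ} {S' : SimpleGraph σ'} {s' : σ'}
    (h : Good T k S s) (e : S' ↪g S) (he : e s' = s) : Good T k S' s' := by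
  obtain ⟨n, G, h1, h2, h3⟩ := h
  exact ⟨n, G, h1, h2, h3.mono e he⟩

theorem B21_B22 : ∃ e : B21 ↪g B22, e 0 = 0 := by
  refine ⟨⟨⟨![0, 1, 2, 4], by decide⟩, ?_⟩, rfl⟩
  intro a b
  revert a b
  decide

theorem B21_B31 : ∃ e : B21 ↪g B31, e 0 = 0 := by
  refine ⟨⟨⟨![0, 1, 2, 3], by decide⟩, ?_⟩, rfl⟩
  intro a b
  revert a b
  decide

/-- `(2,1)@c` is good for every tree containing one of `patM`. -/
theorem good_B21 (hk : 3 ≤ k) (h : ∃ p ∈ patM, Nonempty (tree p.length p ↪g T)) :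
    Good T k B21 0 := by
  obtain ⟨e, he⟩ := B21_B22
  exact good_mono (good_B22 hk h) e he

end

end Pool.Agent.SA97
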