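import Mathlib

set_option autoImplicit false

/-! Search engine over all class patterns of a tree.

`Cl` is a class of vertices: `C` = mask of its vertices, `K` = mask of the vertices whose class is
near or equal, `d` = number of near classes (a lower bound). The engine runs over the plan (list of
the parents of the vertices `1, 2, ...`) and over all possible classes of the new vertex.
The user supplies `step v bp X S R a`: `v` the new vertex, `bp = 2 ^ p` with the parent `p`,
`X` the mask of the earlier vertices in far classes without the parent, `S` the mask of the earlier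
vertices in the same class, `R` the classes before the insertion of `v`, `a` the user state;
`none` = contradiction. -/

namespace Pool.Agent.SA97.Eng

structure Cl where
  C : ℕ
  K : ℕ
  d : ℕ

/-- Call by value for numbers in the kernel. -/
noncomputable def force {β : Type} (n : ℕ) (f : ℕ → β) : β :=
  Nat.rec (motive := fun _ => β) (f 0) (fun m _ => f (Nat.succ m)) n

theorem force_eq {β : Type} (n : ℕ) (f : ℕ → β) : force n f = f n := by
  cases n <;> rfl

/-- `all` with a recursor. -/
noncomputable def allF {γ : Type} (f : γ → Bool) (l : List γ) : Bool :=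
  List.rec (motive := fun _ => Bool) true (fun r _ ih => cond (f r) ih false) l

theorem allF_eq {γ : Type} (f : γ → Bool) (l : List γ) : allF f l = true ↔ ∀ r ∈ l, f r = true := by
  induction l with
  | nil => simp [allF]
  | cons r l ih =>
    have h : allF f (r :: l) = cond (f r) (allF f l) false := rfl
    rw [h]
    cases hf : f r <;> simp [hf, ih]

/-- all pairs `(y, z)`, `z` after `y`. -/
noncomputable def pairsF {γ : Type} (f : γ → γ → Bool) (l : List γ) : Bool :=
  List.rec (motive := fun _ => Bool) true (fun r rs ih => cond (allF (f r) rs) ih false) l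

theorem pairsF_eq {γ : Type} (f : γ → γ → Bool) (l : List γ) :
    pairsF f l = true ↔ l.Pairwise (fun y z => f y z = true) := by
  induction l with
  | nil => simp [pairsF]
  | cons r l ih =>
    have h : pairsF f (r :: l) = cond (allF (f r) l) (pairsF f l) false := rfl
    rw [h, List.pairwise_cons, ← ih, ← allF_eq]
    cases hf : allF (f r) l <;> simp

theorem beq_zero (n : ℕ) : Nat.beq n 0 = decide (n = 0) := by
  by_cases h : n = 0
  · rw [h]; rfl
  · rw [decide_eq_false h, Bool.eq_false_iff]
    intro h'; exact h (Nat.eq_of_beq_eq_true h')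

theorem beq_dec (m n : ℕ) : Nat.beq m n = decide (m = n) := by
  by_cases h : m = n
  · rw [decide_eq_true h, h]; exact Nat.beq_refl n
  · rw [decide_eq_false h, Bool.eq_false_iff]
    intro h'; exact h (Nat.eq_of_beq_eq_true h')

/-- insertion in an existing class, continuation style -/
noncomputable def updE (bit Cq Kq : ℕ) (l : List Cl) : (List Cl → Bool) → Bool :=
  List.rec (motive := fun _ => (List Cl → Bool) → Bool) (fun k => k [])
    (fun r _ ih k => cond (Nat.beq (Nat.land r.C Kq) 0)
      (ih (fun rs => k (r :: rs)))
      (force (cond (Nat.beq r.C Cq) (Nat.lor r.C bit) r.C) (fun c =>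
        force (Nat.lor r.K bit) (fun kk => ih (fun rs => k (⟨c, kk, r.d⟩ :: rs)))))) l

def updE1 (bit Cq Kq : ℕ) (r : Cl) : Cl :=
  bif decide (Nat.land r.C Kq = 0) then r
  else ⟨bif decide (r.C = Cq) then Nat.lor r.C bit else r.C, Nat.lor r.K bit, r.d⟩

theorem updE_eq (bit Cq Kq : ℕ) (l : List Cl) (k : List Cl → Bool) :
    updE bit Cq Kq l k = k (l.map (updE1 bit Cq Kq)) := by
  induction l generalizing k with
  | nil => rfl
  | cons r l ih =>
    have h : updE bit Cq Kq (r :: l) k = cond (Nat.beq (Nat.land r.C Kq) 0)
      (updE bit Cq Kq l (fun rs => k (r :: rs)))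
      (force (cond (Nat.beq r.C Cq) (Nat.lor r.C bit) r.C) (fun c =>
        force (Nat.lor r.K bit) (fun kk => updE bit Cq Kq l (fun rs => k (⟨c, kk, r.d⟩ :: rs))))) := rfl
    rw [h, List.map_cons, force_eq, force_eq, ih, ih, beq_zero, beq_dec]
    unfold updE1
    cases decide (Nat.land r.C Kq = 0) <;> rfl

/-- insertion of a new class near to the classes meeting `M`, continuation style -/
noncomputable def updN (bit M : ℕ) (l : List Cl) : (List Cl → Bool) → Bool :=
  List.rec (motive := fun _ => (List Cl → Bool) → Bool) (fun k => k [])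
    (fun r _ ih k => cond (Nat.beq (Nat.land r.C M) 0)
      (ih (fun rs => k (r :: rs)))
      (force (Nat.lor r.K bit) (fun kk => force (Nat.succ r.d) (fun dd =>
        ih (fun rs => k (⟨r.C, kk, dd⟩ :: rs)))))) l

def updN1 (bit M : ℕ) (r : Cl) : Cl :=
  bif decide (Nat.land r.C M = 0) then r else ⟨r.C, Nat.lor r.K bit, Nat.succ r.d⟩

theorem updN_eq (bit M : ℕ) (l : List Cl) (k : List Cl → Bool) :
    updN bit M l k = k (l.map (updN1 bit M)) := by
  induction l generalizing k with
  | nil => rfl
  | cons r l ih =>
    have h : updN bit M (r :: l) k = cond (Nat.beq (Nat.land r.C M) 0)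
      (updN bit M l (fun rs => k (r :: rs)))
      (force (Nat.lor r.K bit) (fun kk => force (Nat.succ r.d) (fun dd =>
        updN bit M l (fun rs => k (⟨r.C, kk, dd⟩ :: rs))))) := rfl
    rw [h, List.map_cons, force_eq, force_eq, ih, ih, beq_zero]
    unfold updN1
    cases decide (Nat.land r.C M = 0) <;> rfl

section
variable {α : Type} (step : ℕ → ℕ → ℕ → ℕ → List Cl → α → Option α)

/-- continue with the new state, `none` is a contradiction -/
noncomputable def next (o : Option α) (f : α → Bool) : Bool :=
  Option.rec (motive := fun _ => Bool) true f o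

theorem next_some (a : α) (f : α → Bool) : next (some a) f = f a := rfl

/-- The search: `true` = every pattern is contradictory. `bit = 2 ^ v`. -/
noncomputable def search (plan : List ℕ) : ℕ → ℕ → List Cl → α → Bool :=
  List.rec (motive := fun _ => ℕ → ℕ → List Cl → α → Bool) (fun _ _ _ _ => false)
    (fun p _ ih v bit R a =>
      force (Nat.pow 2 p) (fun bp => force (Nat.xor (Nat.sub bit 1) bp) (fun full =>
      force (Nat.succ v) (fun v' => force (Nat.mul 2 bit) (fun bit' =>
        -- existing classes
        cond (allF (fun r => cond (Nat.beq (Nat.land r.K bp) 0)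
            (force (Nat.xor full r.K) (fun X =>
              next (step v bp X r.C R a)
                (fun a' => updE bit r.C r.K R (fun R' => ih v' bit' R' a'))))
            true) R)
        -- new class without near classes
        (cond (next (step v bp full 0 R a) (fun a' => ih v' bit' (⟨bit, bit, 0⟩ :: R) a'))
        -- new class with one near class
        (cond (allF (fun y => cond (Nat.ble y.d 1)
            (cond (Nat.beq (Nat.land y.C bp) 0)
              (force (Nat.xor full y.C) (fun X =>
                next (step v bp X 0 R a)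
                  (fun a' => force (Nat.lor y.C bit) (fun kk =>
                    updN bit y.C R (fun R' => ih v' bit' (⟨bit, kk, 1⟩ :: R') a')))))
              true) true) R)
        -- new class with two near classes
        (pairsF (fun y z => cond (Nat.ble y.d 1) (cond (Nat.ble z.d 1)
            (cond (Nat.beq (Nat.land y.K z.K) 0)
            (force (Nat.lor y.C z.C) (fun M =>
              cond (Nat.beq (Nat.land M bp) 0)
              (force (Nat.xor full M) (fun X =>
                next (step v bp X 0 R a)
                  (fun a' => force (Nat.lor M bit) (fun kk =>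
                    updN bit M R (fun R' => ih v' bit' (⟨bit, kk, 2⟩ :: R') a')))))
              true)) true) true) true) R) false) false) false))))) plan

/-- the full search, vertex `0` has a class of its own -/
noncomputable def run (plan : List ℕ) (a : α) : Bool :=
  search step plan 1 2 [⟨1, 1, 0⟩] a

theorem search_nil (v bit : ℕ) (R : List Cl) (a : α) : search step [] v bit R a = false := rfl

theorem search_cons (p : ℕ) (plan : List ℕ) (v bit : ℕ) (R : List Cl) (a : α) :
    search step (p :: plan) v bit R a = true ↔
      (∀ r ∈ R, Nat.land r.K (2 ^ p) = 0 →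
        next (step v (2 ^ p) (Nat.xor (Nat.xor (bit - 1) (2 ^ p)) r.K) r.C R a)
          (fun a' => search step plan (v + 1) (2 * bit) (R.map (updE1 bit r.C r.K)) a') = true) ∧
      next (step v (2 ^ p) (Nat.xor (bit - 1) (2 ^ p)) 0 R a)
        (fun a' => search step plan (v + 1) (2 * bit) (⟨bit, bit, 0⟩ :: R) a') = true ∧
      (∀ y ∈ R, y.d ≤ 1 → Nat.land y.C (2 ^ p) = 0 →
        next (step v (2 ^ p) (Nat.xor (Nat.xor (bit - 1) (2 ^ p)) y.C) 0 R a)
          (fun a' => search step plan (v + 1) (2 * bit)
            (⟨bit, Nat.lor y.C bit, 1⟩ :: R.map (updN1 bit y.C)) a') = true) ∧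
      R.Pairwise (fun y z => y.d ≤ 1 → z.d ≤ 1 → Nat.land y.K z.K = 0 →
        Nat.land (Nat.lor y.C z.C) (2 ^ p) = 0 →
        next (step v (2 ^ p) (Nat.xor (Nat.xor (bit - 1) (2 ^ p)) (Nat.lor y.C z.C)) 0 R a)
          (fun a' => search step plan (v + 1) (2 * bit)
            (⟨bit, Nat.lor (Nat.lor y.C z.C) bit, 2⟩ :: R.map (updN1 bit (Nat.lor y.C z.C))) a')
          = true) := by
  have hc : ∀ (b c : Bool), (cond b c false = true) ↔ (b = true ∧ c = true) := by
    intro b c; cases b <;> simp
  have hc1 : ∀ (b c : Bool), (cond b c true = true) ↔ (b = true → c = true) := by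
    intro b c; cases b <;> simp
  have h : search step (p :: plan) v bit R a =
      force (Nat.pow 2 p) (fun bp => force (Nat.xor (Nat.sub bit 1) bp) (fun full =>
      force (Nat.succ v) (fun v' => force (Nat.mul 2 bit) (fun bit' =>
        cond (allF (fun r => cond (Nat.beq (Nat.land r.K bp) 0)
            (force (Nat.xor full r.K) (fun X =>
              next (step v bp X r.C R a)
                (fun a' => updE bit r.C r.K R (fun R' => search step plan v' bit' R' a'))))
            true) R)
        (cond (next (step v bp full 0 R a) (fun a' => search step plan v' bit' (⟨bit, bit, 0⟩ :: R) a'))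
        (cond (allF (fun y => cond (Nat.ble y.d 1)
            (cond (Nat.beq (Nat.land y.C bp) 0)
              (force (Nat.xor full y.C) (fun X =>
                next (step v bp X 0 R a)
                  (fun a' => force (Nat.lor y.C bit) (fun kk =>
                    updN bit y.C R (fun R' => search step plan v' bit' (⟨bit, kk, 1⟩ :: R') a')))))
              true) true) R)
        (pairsF (fun y z => cond (Nat.ble y.d 1) (cond (Nat.ble z.d 1)
            (cond (Nat.beq (Nat.land y.K z.K) 0)
            (force (Nat.lor y.C z.C) (fun M =>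
              cond (Nat.beq (Nat.land M bp) 0)
              (force (Nat.xor full M) (fun X =>
                next (step v bp X 0 R a)
                  (fun a' => force (Nat.lor M bit) (fun kk =>
                    updN bit M R (fun R' => search step plan v' bit' (⟨bit, kk, 2⟩ :: R') a')))))
              true)) true) true) true) R) false) false) false)))) := rfl
  rw [h]
  simp only [force_eq, updE_eq, updN_eq, hc, hc1, allF_eq, pairsF_eq, beq_zero, Nat.ble_eq,
    decide_eq_true_eq]
  exact Iff.rfl

end

/-! ### Soundness -/

/-- The properties of the near relation used by the engine. -/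
structure Near {D : Type*} (near : D → D → Prop) : Prop where
  refl : ∀ x, near x x
  symm : ∀ x y, near x y → near y x
  two : ∀ x a b c, near x a → near x b → near x c → a ≠ x → b ≠ x → c ≠ x →
    a = b ∨ a = c ∨ b = c
  tri : ∀ a b c, near a b → near b c → near c a → a = b ∨ b = c ∨ c = a
  quad : ∀ a b c d, near a b → near b c → near c d → near d a →
    a = b ∨ b = c ∨ c = d ∨ d = a ∨ a = c ∨ b = d

/-- `r` is the record of the class `d` after the vertices `0, ..., v-1`; `ds` = all classes. -/
structure Rec {D : Type*} (near : D → D → Prop) (cls : ℕ → D) (v : ℕ) (ds : List D) (d : D)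
    (r : Cl) : Prop where
  hC : ∀ u, r.C.testBit u = true ↔ (u < v ∧ cls u = d)
  hK : ∀ u, r.K.testBit u = true ↔ (u < v ∧ near (cls u) d)
  hd : ∃ es : List D, es.Nodup ∧ es.length = r.d ∧ ∀ e ∈ es, e ≠ d ∧ near e d ∧ e ∈ ds

structure Valid {D : Type*} (near : D → D → Prop) (cls : ℕ → D) (v : ℕ) (ds : List D)
    (R : List Cl) : Prop where
  nodup : ds.Nodup
  mem : ∀ d, d ∈ ds ↔ ∃ u < v, cls u = d
  recs : List.Forall₂ (Rec near cls v ds) ds R

section
variable {D : Type*} {near : D → D → Prop} {cls : ℕ → D} {v : ℕ} {ds : List D} {R : List Cl}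

theorem land_eq_zero (a b : ℕ) : Nat.land a b = 0 ↔ ∀ u, ¬(a.testBit u = true ∧ b.testBit u = true) := by
  have h : ∀ u, (Nat.land a b).testBit u = (a.testBit u && b.testBit u) := fun u => Nat.testBit_and a b u
  constructor
  · intro h0 u hu
    have := h u
    rw [h0, Nat.zero_testBit, hu.1, hu.2] at this
    exact absurd this (by decide)
  · intro h0
    apply Nat.eq_of_testBit_eq
    intro u
    rw [h, Nat.zero_testBit]
    have := h0 u
    cases ha : a.testBit u <;> cases hb : b.testBit u <;> simp_all

theorem testBit_lor (a b u : ℕ) : (Nat.lor a b).testBit u = (a.testBit u || b.testBit u) :=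
  Nat.testBit_or a b u

theorem testBit_xor' (a b u : ℕ) : (Nat.xor a b).testBit u = (a.testBit u ^^ b.testBit u) :=
  Nat.testBit_xor a b u

theorem testBit_pow (v u : ℕ) : (2 ^ v).testBit u = decide (v = u) := Nat.testBit_two_pow

theorem land_pow_eq_zero (a p : ℕ) : Nat.land a (2 ^ p) = 0 ↔ a.testBit p = false := by
  rw [land_eq_zero]
  constructor
  · intro h
    have := h p
    rw [testBit_pow] at this
    simpa using this
  · rintro h u ⟨h1, h2⟩
    rw [testBit_pow] at h2
    have h3 : p = u := by simpa using h2
    rw [← h3, h] at h1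
    exact absurd h1 (by decide)

/-- the mask of the far vertices without the parent -/
theorem xmask {p K : ℕ} (hp : p < v) (hnp : ¬near (cls p) (cls v))
    (hK : ∀ u, K.testBit u = true ↔ (u < v ∧ near (cls u) (cls v))) (u : ℕ) :
    (Nat.xor (Nat.xor (2 ^ v - 1) (2 ^ p)) K).testBit u = true ↔
      (u < v ∧ u ≠ p ∧ ¬near (cls u) (cls v)) := by
  rw [testBit_xor', testBit_xor', testBit_pow, Nat.testBit_two_pow_sub_one]
  have h := hK u
  by_cases h1 : u = p
  · subst h1
    have h2 : K.testBit u = false := by
      rw [Bool.eq_false_iff]; intro h3; exact hnp (h.1 h3).2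
    rw [h2]
    simp [hp]
  · by_cases h2 : u < v
    · by_cases h3 : near (cls u) (cls v)
      · have h4 := h.2 ⟨h2, h3⟩
        rw [h4]
        simp [h2, h3, Ne.symm h1]
      · have h4 : K.testBit u = false := by
          rw [Bool.eq_false_iff]; intro h5; exact h3 (h.1 h5).2
        rw [h4]
        simp [h2, h3, h1, Ne.symm h1]
    · have h4 : K.testBit u = false := by
        rw [Bool.eq_false_iff]; intro h5; exact h2 (h.1 h5).1
      rw [h4]
      simp [h2, Ne.symm h1]

theorem Rec.C_ne {d : D} {r : Cl} (hv : Valid near cls v ds R) (hd : d ∈ ds)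
    (hr : Rec near cls v ds d r) (M : ℕ) (e : D)
    (hM : ∀ u, u < v → (M.testBit u = true ↔ near (cls u) e)) :
    Nat.land r.C M = 0 ↔ ¬near d e := by
  obtain ⟨u, hu, hud⟩ := (hv.mem d).1 hd
  rw [land_eq_zero]
  constructor
  · intro h hn
    exact h u ⟨(hr.hC u).2 ⟨hu, hud⟩, (hM u hu).2 (by rw [hud]; exact hn)⟩
  · rintro h w ⟨h1, h2⟩
    obtain ⟨h3, h4⟩ := (hr.hC w).1 h1
    apply h
    rw [← h4]
    exact (hM w h3).1 h2

theorem valid_updE (hN : Near near) (hv : Valid near cls v ds R) {r : Cl} (hc : cls v ∈ ds)
    (hr : Rec near cls v ds (cls v) r) :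
    Valid near cls (v + 1) ds (R.map (updE1 (2 ^ v) r.C r.K)) := by
  refine ⟨hv.nodup, ?_, ?_⟩
  · intro d
    rw [hv.mem d]
    constructor
    · rintro ⟨u, hu, h⟩; exact ⟨u, by omega, h⟩
    · rintro ⟨u, hu, h⟩
      by_cases h1 : u = v
      · subst h1
        rw [← h]
        exact (hv.mem _).1 hc
      · exact ⟨u, by omega, h⟩
  · rw [List.forall₂_map_right_iff]
    have h0 : List.Forall₂ (fun d r' => d ∈ ds ∧ Rec near cls v ds d r') ds R := by
      have h1 := hv.recs
      rw [List.forall₂_iff_get] at h1 ⊢
      refine ⟨h1.1, fun i hi hi' => ⟨List.get_mem _ _, h1.2 i hi hi'⟩⟩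
    refine h0.imp ?_
    rintro d r' ⟨hd, hr'⟩
    have key := Rec.C_ne hv hd hr' r.K (cls v) (fun u hu => by rw [hr.hK u]; simp [hu])
    unfold updE1
    by_cases h2 : Nat.land r'.C r.K = 0
    · rw [decide_eq_true h2, cond_true]
      have h3 := key.1 h2
      refine ⟨?_, ?_, hr'.hd⟩
      · intro u
        rw [hr'.hC u]
        constructor
        · rintro ⟨h4, h5⟩; exact ⟨by omega, h5⟩
        · rintro ⟨h4, h5⟩
          refine ⟨?_, h5⟩
          rcases Nat.lt_succ_iff_lt_or_eq.1 h4 with h6 | h6
          · exact h6
          · subst h6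
            exact absurd (by rw [h5]; exact hN.refl _) h3
      · intro u
        rw [hr'.hK u]
        constructor
        · rintro ⟨h4, h5⟩; exact ⟨by omega, h5⟩
        · rintro ⟨h4, h5⟩
          refine ⟨?_, h5⟩
          rcases Nat.lt_succ_iff_lt_or_eq.1 h4 with h6 | h6
          · exact h6
          · subst h6
            exact absurd (hN.symm _ _ h5) h3
    · rw [decide_eq_false h2, cond_false]
      have h3 : near d (cls v) := by
        by_contra h; exact h2 (key.2 h)
      refine ⟨?_, ?_, hr'.hd⟩
      · intro u
        by_cases h4 : r'.C = r.C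
        · have h5 : d = cls v := by
            obtain ⟨w, hw, hwd⟩ := (hv.mem d).1 hd
            have h6 := (hr'.hC w).2 ⟨hw, hwd⟩
            rw [h4] at h6
            rw [← ((hr.hC w).1 h6).2, hwd]
          rw [decide_eq_true h4, cond_true]
          show (Nat.lor r'.C (2 ^ v)).testBit u = true ↔ _
          rw [testBit_lor, testBit_pow, Bool.or_eq_true, hr'.hC u, decide_eq_true_eq]
          constructor
          · rintro (⟨h6, h7⟩ | h6)
            · exact ⟨by omega, h7⟩
            · subst h6; exact ⟨by omega, h5.symm⟩
          · rintro ⟨h6, h7⟩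
            by_cases h8 : v = u
            · exact Or.inr h8
            · exact Or.inl ⟨by omega, h7⟩
        · rw [decide_eq_false h4, cond_false]
          show r'.C.testBit u = true ↔ _
          rw [hr'.hC u]
          constructor
          · rintro ⟨h5, h6⟩; exact ⟨by omega, h6⟩
          · rintro ⟨h5, h6⟩
            refine ⟨?_, h6⟩
            rcases Nat.lt_succ_iff_lt_or_eq.1 h5 with h7 | h7
            · exact h7
            · exfalso
              subst h7
              apply h4
              apply Nat.eq_of_testBit_eq
              intro w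
              rw [Bool.eq_iff_iff, hr'.hC w, hr.hC w, h6]
      · intro u
        show (Nat.lor r'.K (2 ^ v)).testBit u = true ↔ _
        rw [testBit_lor, testBit_pow, Bool.or_eq_true, hr'.hK u, decide_eq_true_eq]
        constructor
        · rintro (⟨h6, h7⟩ | h6)
          · exact ⟨by omega, h7⟩
          · subst h6; exact ⟨by omega, hN.symm _ _ h3⟩
        · rintro ⟨h6, h7⟩
          by_cases h8 : v = u
          · exact Or.inr h8
          · exact Or.inl ⟨by omega, h7⟩

theorem valid_new (hN : Near near) (hv : Valid near cls v ds R) (hc : cls v ∉ ds) {M t : ℕ}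
    (hM : ∀ u, M.testBit u = true ↔ (u < v ∧ near (cls u) (cls v)))
    (ht : ∃ es : List D, es.Nodup ∧ es.length = t ∧ ∀ e ∈ es, near e (cls v) ∧ e ∈ ds) :
    Valid near cls (v + 1) (cls v :: ds)
      (⟨2 ^ v, Nat.lor M (2 ^ v), t⟩ :: R.map (updN1 (2 ^ v) M)) := by
  refine ⟨List.nodup_cons.2 ⟨hc, hv.nodup⟩, ?_, ?_⟩
  · intro d
    rw [List.mem_cons, hv.mem d]
    constructor
    · rintro (h | ⟨u, hu, h⟩)
      · exact ⟨v, by omega, h.symm⟩
      · exact ⟨u, by omega, h⟩
    · rintro ⟨u, hu, h⟩
      by_cases h1 : u = v
      · subst h1; exact Or.inl h.symm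
      · exact Or.inr ⟨u, by omega, h⟩
  · rw [List.forall₂_cons]
    refine ⟨⟨?_, ?_, ?_⟩, ?_⟩
    · intro u
      show (2 ^ v).testBit u = true ↔ _
      rw [testBit_pow, decide_eq_true_eq]
      constructor
      · rintro rfl; exact ⟨by omega, rfl⟩
      · rintro ⟨h1, h2⟩
        by_contra h3
        exact hc ((hv.mem _).2 ⟨u, by omega, h2⟩)
    · intro u
      show (Nat.lor M (2 ^ v)).testBit u = true ↔ _
      rw [testBit_lor, testBit_pow, Bool.or_eq_true, hM u, decide_eq_true_eq]
      constructor
      · rintro (⟨h6, h7⟩ | h6)
        · exact ⟨by omega, h7⟩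
        · subst h6; exact ⟨by omega, hN.refl _⟩
      · rintro ⟨h6, h7⟩
        by_cases h8 : v = u
        · exact Or.inr h8
        · exact Or.inl ⟨by omega, h7⟩
    · obtain ⟨es, h1, h2, h3⟩ := ht
      refine ⟨es, h1, h2, fun e he => ⟨?_, (h3 e he).1, List.mem_cons_of_mem _ (h3 e he).2⟩⟩
      rintro rfl
      exact hc (h3 _ he).2
    · rw [List.forall₂_map_right_iff]
      have h0 : List.Forall₂ (fun d r' => d ∈ ds ∧ Rec near cls v ds d r') ds R := by
        have h1 := hv.recs
        rw [List.forall₂_iff_get] at h1 ⊢
        refine ⟨h1.1, fun i hi hi' => ⟨List.get_mem _ _, h1.2 i hi hi'⟩⟩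
      refine h0.imp ?_
      rintro d r' ⟨hd, hr'⟩
      have hdv : d ≠ cls v := by rintro rfl; exact hc hd
      have key := Rec.C_ne hv hd hr' M (cls v) (fun u hu => by rw [hM u]; simp [hu])
      unfold updN1
      have hC' : ∀ u, r'.C.testBit u = true ↔ (u < v + 1 ∧ cls u = d) := by
        intro u
        rw [hr'.hC u]
        constructor
        · rintro ⟨h4, h5⟩; exact ⟨by omega, h5⟩
        · rintro ⟨h4, h5⟩
          refine ⟨?_, h5⟩
          rcases Nat.lt_succ_iff_lt_or_eq.1 h4 with h6 | h6
          · exact h6
          · subst h6; exact absurd h5.symm hdv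
      by_cases h2 : Nat.land r'.C M = 0
      · rw [decide_eq_true h2, cond_true]
        have h3 := key.1 h2
        refine ⟨hC', ?_, ?_⟩
        · intro u
          rw [hr'.hK u]
          constructor
          · rintro ⟨h4, h5⟩; exact ⟨by omega, h5⟩
          · rintro ⟨h4, h5⟩
            refine ⟨?_, h5⟩
            rcases Nat.lt_succ_iff_lt_or_eq.1 h4 with h6 | h6
            · exact h6
            · subst h6
              exact absurd (hN.symm _ _ h5) h3
        · obtain ⟨es, h4, h5, h6⟩ := hr'.hd
          exact ⟨es, h4, h5, fun e he => ⟨(h6 e he).1, (h6 e he).2.1, List.mem_cons_of_mem _ (h6 e he).2.2⟩⟩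
      · rw [decide_eq_false h2, cond_false]
        have h3 : near d (cls v) := by
          by_contra h; exact h2 (key.2 h)
        refine ⟨hC', ?_, ?_⟩
        · intro u
          show (Nat.lor r'.K (2 ^ v)).testBit u = true ↔ _
          rw [testBit_lor, testBit_pow, Bool.or_eq_true, hr'.hK u, decide_eq_true_eq]
          constructor
          · rintro (⟨h6, h7⟩ | h6)
            · exact ⟨by omega, h7⟩
            · subst h6; exact ⟨by omega, hN.symm _ _ h3⟩
          · rintro ⟨h6, h7⟩
            by_cases h8 : v = u
            · exact Or.inr h8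
            · exact Or.inl ⟨by omega, h7⟩
        · obtain ⟨es, h4, h5, h6⟩ := hr'.hd
          refine ⟨cls v :: es, List.nodup_cons.2 ⟨fun h => hc (h6 _ h).2.2, h4⟩, ?_, ?_⟩
          · rw [List.length_cons, h5]
          · intro e he
            rw [List.mem_cons] at he
            rcases he with rfl | he
            · exact ⟨hdv.symm, hN.symm _ _ h3, List.mem_cons_self⟩
            · exact ⟨(h6 e he).1, (h6 e he).2.1, List.mem_cons_of_mem _ (h6 e he).2.2⟩

end

theorem exists_rec {A B : Type*} {P : A → B → Prop} {ds : List A} {R : List B}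
    (h : List.Forall₂ P ds R) {y : A} (hy : y ∈ ds) : ∃ r ∈ R, P y r := by
  induction h with
  | nil => simp at hy
  | cons h1 h2 ih =>
    rw [List.mem_cons] at hy
    rcases hy with rfl | hy
    · exact ⟨_, List.mem_cons_self, h1⟩
    · obtain ⟨r, h3, h4⟩ := ih hy
      exact ⟨r, List.mem_cons_of_mem _ h3, h4⟩

theorem pair_rec {A B : Type*} {P : A → B → Prop} {ds : List A} {R : List B} {f : B → B → Prop}
    (h : List.Forall₂ P ds R) (hf : R.Pairwise f) {y z : A} (hy : y ∈ ds) (hz : z ∈ ds)
    (hyz : y ≠ z) : ∃ r s, P y r ∧ P z s ∧ (f r s ∨ f s r) := by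
  induction h with
  | nil => simp at hy
  | cons h1 h2 ih =>
    rw [List.pairwise_cons] at hf
    rw [List.mem_cons] at hy hz
    rcases hy with rfl | hy
    · rcases hz with rfl | hz
      · exact absurd rfl hyz
      · obtain ⟨s, h3, h4⟩ := exists_rec h2 hz
        exact ⟨_, s, h1, h4, Or.inl (hf.1 s h3)⟩
    · rcases hz with rfl | hz
      · obtain ⟨r, h3, h4⟩ := exists_rec h2 hy
        exact ⟨r, _, h4, h1, Or.inr (hf.1 r h3)⟩
      · exact ih hf.2 hy hz

theorem map_updN_zero (b : ℕ) (R : List Cl) : R.map (updN1 b 0) = R := by
  have h : ∀ r : Cl, updN1 b 0 r = r := by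
    intro r
    unfold updN1
    have h1 : Nat.land r.C 0 = 0 := Nat.and_zero r.C
    rw [h1]; rfl
  rw [show updN1 b 0 = id from funext h, List.map_id]

/-- The specification of a step of the user: `par` = parents, `n` = number of vertices. -/
def StepOK {D : Type*} {α : Type} (near : D → D → Prop) (cls : ℕ → D) (par : ℕ → ℕ) (n : ℕ)
    (step : ℕ → ℕ → ℕ → ℕ → List Cl → α → Option α) (Inv : ℕ → α → Prop) : Prop :=
  ∀ v, 1 ≤ v → v < n → ∀ (ds : List D) (R : List Cl) (a : α) (X S : ℕ), Inv v a →
    Valid near cls v ds R →
    (∀ u, X.testBit u = true ↔ (u < v ∧ u ≠ par v ∧ ¬near (cls u) (cls v))) →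
    (∀ u, S.testBit u = true ↔ (u < v ∧ cls u = cls v)) →
    ∃ a', step v (2 ^ par v) X S R a = some a' ∧ Inv (v + 1) a'

section
variable {D : Type*} {α : Type} {near : D → D → Prop} {cls : ℕ → D} {par : ℕ → ℕ} {n : ℕ}
  {step : ℕ → ℕ → ℕ → ℕ → List Cl → α → Option α} {Inv : ℕ → α → Prop}

theorem search_sound (hN : Near near) (hstep : StepOK near cls par n step Inv)
    (hpar : ∀ v, 1 ≤ v → v < n → par v < v ∧ ¬near (cls (par v)) (cls v)) :
    ∀ (plan : List ℕ) (v : ℕ), 1 ≤ v → v + plan.length = n →
      (∀ (i : ℕ) (h : i < plan.length), plan[i] = par (v + i)) →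
      ∀ (ds : List D) (R : List Cl) (a : α), Valid near cls v ds R → Inv v a →
        search step plan v (2 ^ v) R a = false := by
  intro plan
  induction plan with
  | nil => intro v _ _ _ ds R a _ _; rfl
  | cons p plan ih =>
    intro v hv1 hvn hplan ds R a hV hI
    rw [List.length_cons] at hvn
    have hp : p = par v := hplan 0 (by simp)
    subst hp
    obtain ⟨hpv, hnp⟩ := hpar v hv1 (by omega)
    rw [Bool.eq_false_iff]
    intro htrue
    rw [search_cons] at htrue
    obtain ⟨h1, h2, h3, h4⟩ := htrue
    -- the induction hypothesis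
    have ih' : ∀ (ds' : List D) (R' : List Cl) (a' : α), Valid near cls (v + 1) ds' R' →
        Inv (v + 1) a' → search step plan (v + 1) (2 * 2 ^ v) R' a' = false := by
      intro ds' R' a' hV' hI'
      rw [show 2 * 2 ^ v = 2 ^ (v + 1) by rw [pow_succ]; ring]
      refine ih (v + 1) (by omega) (by omega) ?_ ds' R' a' hV' hI'
      intro i hi
      have := hplan (i + 1) (by rw [List.length_cons]; omega)
      rw [List.getElem_cons_succ] at this
      rw [this]
      congr 1
      omega
    by_cases hc : cls v ∈ ds
    · -- existing class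
      obtain ⟨r, hrR, hr⟩ := exists_rec hV.recs hc
      have hK : Nat.land r.K (2 ^ par v) = 0 := by
        rw [land_pow_eq_zero, Bool.eq_false_iff]
        intro h; exact hnp ((hr.hK _).1 h).2
      obtain ⟨a', ha', hI'⟩ := hstep v hv1 (by omega) ds R a _ _ hI hV
        (xmask hpv hnp hr.hK) hr.hC
      have h5 := h1 r hrR hK
      rw [ha', next_some, ih' ds _ a' (valid_updE hN hV hc hr) hI'] at h5
      exact absurd h5 (by decide)
    · -- new class
      have hS : ∀ u, (0 : ℕ).testBit u = true ↔ (u < v ∧ cls u = cls v) := by
        intro u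
        rw [Nat.zero_testBit]
        constructor
        · intro h; exact absurd h (by decide)
        · rintro ⟨h5, h6⟩; exact absurd ((hV.mem _).2 ⟨u, h5, h6⟩) hc
      -- general statement for the set of near classes
      have gen : ∀ (M t : ℕ), (∀ u, M.testBit u = true ↔ (u < v ∧ near (cls u) (cls v))) →
          (∃ es : List D, es.Nodup ∧ es.length = t ∧ ∀ e ∈ es, near e (cls v) ∧ e ∈ ds) →
          next (step v (2 ^ par v) (Nat.xor (Nat.xor (2 ^ v - 1) (2 ^ par v)) M) 0 R a)
            (fun a' => search step plan (v + 1) (2 * 2 ^ v)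
              (⟨2 ^ v, Nat.lor M (2 ^ v), t⟩ :: R.map (updN1 (2 ^ v) M)) a') = false := by
        intro M t hM ht
        obtain ⟨a', ha', hI'⟩ := hstep v hv1 (by omega) ds R a _ _ hI hV
          (xmask hpv hnp hM) hS
        rw [ha', next_some, ih' _ _ a' (valid_new hN hV hc hM ht) hI']
      by_cases hy : ∃ y ∈ ds, near y (cls v)
      · obtain ⟨y, hyds, hyn⟩ := hy
        by_cases hz : ∃ z ∈ ds, z ≠ y ∧ near z (cls v)
        · obtain ⟨z, hzds, hzy, hzn⟩ := hz
          -- two near classes
          have hyv : y ≠ cls v := by rintro rfl; exact hc hyds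
          have hzv : z ≠ cls v := by rintro rfl; exact hc hzds
          have key : ∀ y z r s, y ∈ ds → z ∈ ds → y ≠ z → near y (cls v) → near z (cls v) →
              Rec near cls v ds y r → Rec near cls v ds z s →
              (r.d ≤ 1 → s.d ≤ 1 → Nat.land r.K s.K = 0 →
              Nat.land (Nat.lor r.C s.C) (2 ^ par v) = 0 →
              next (step v (2 ^ par v) (Nat.xor (Nat.xor (2 ^ v - 1) (2 ^ par v)) (Nat.lor r.C s.C)) 0 R a)
                (fun a' => search step plan (v + 1) (2 * 2 ^ v)
                  (⟨2 ^ v, Nat.lor (Nat.lor r.C s.C) (2 ^ v), 2⟩ ::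
                    R.map (updN1 (2 ^ v) (Nat.lor r.C s.C))) a') = true) → False := by
            intro y z r s hyds hzds hyz hyn hzn hr hs hcond
            have hyv : y ≠ cls v := by rintro rfl; exact hc hyds
            have hzv : z ≠ cls v := by rintro rfl; exact hc hzds
            have hdeg : ∀ y r, y ∈ ds → near y (cls v) → y ≠ cls v → Rec near cls v ds y r →
                r.d ≤ 1 := by
              intro y r hyds hyn hyv hr
              obtain ⟨es, h5, h6, h7⟩ := hr.hd
              by_contra h8
              rcases es with _ | ⟨e1, _ | ⟨e2, es⟩⟩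
              · simp at h6; omega
              · simp at h6; omega
              · have h9 := h7 e1 (by simp)
                have h10 := h7 e2 (by simp)
                have h11 : e1 ≠ e2 := by
                  rw [List.nodup_cons] at h5
                  intro h; apply h5.1; rw [h]; simp
                rcases hN.two y (cls v) e1 e2 hyn (hN.symm _ _ h9.2.1) (hN.symm _ _ h10.2.1)
                  (Ne.symm hyv) h9.1 h10.1 with h | h | h
                · exact hc (h ▸ h9.2.2)
                · exact hc (h ▸ h10.2.2)
                · exact h11 h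
            have hM : ∀ u, (Nat.lor r.C s.C).testBit u = true ↔
                (u < v ∧ near (cls u) (cls v)) := by
              intro u
              rw [testBit_lor, Bool.or_eq_true, hr.hC, hs.hC]
              constructor
              · rintro (⟨h5, h6⟩ | ⟨h5, h6⟩)
                · exact ⟨h5, by rw [h6]; exact hyn⟩
                · exact ⟨h5, by rw [h6]; exact hzn⟩
              · rintro ⟨h5, h6⟩
                have h7 : cls u ≠ cls v := by
                  intro h; exact hc ((hV.mem _).2 ⟨u, h5, h⟩)
                rcases hN.two (cls v) (cls u) y z (hN.symm _ _ h6) (hN.symm _ _ hyn)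
                  (hN.symm _ _ hzn) h7 hyv hzv with h | h | h
                · exact Or.inl ⟨h5, h⟩
                · exact Or.inr ⟨h5, h⟩
                · exact absurd h hyz
            have hK : Nat.land r.K s.K = 0 := by
              rw [land_eq_zero]
              rintro u ⟨h5, h6⟩
              obtain ⟨h7, h8⟩ := (hr.hK u).1 h5
              obtain ⟨-, h9⟩ := (hs.hK u).1 h6
              have h10 : cls u ≠ cls v := by
                intro h; exact hc ((hV.mem _).2 ⟨u, h7, h⟩)
              by_cases h11 : cls u = y
              · rw [h11] at h9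
                rcases hN.tri y z (cls v) h9 hzn (hN.symm _ _ hyn) with h | h | h
                · exact hyz h
                · exact hzv h
                · exact hyv h.symm
              · by_cases h12 : cls u = z
                · rw [h12] at h8
                  rcases hN.tri y z (cls v) (hN.symm _ _ h8) hzn (hN.symm _ _ hyn) with h | h | h
                  · exact hyz h
                  · exact hzv h
                  · exact hyv h.symm
                · rcases hN.quad (cls v) y (cls u) z (hN.symm _ _ hyn) (hN.symm _ _ h8) h9 hzn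
                    with h | h | h | h | h | h
                  · exact hyv h.symm
                  · exact h11 h.symm
                  · exact h12 h
                  · exact hzv h
                  · exact h10 h.symm
                  · exact hyz h
            have hB : Nat.land (Nat.lor r.C s.C) (2 ^ par v) = 0 := by
              rw [land_pow_eq_zero, Bool.eq_false_iff]
              intro h; exact hnp ((hM _).1 h).2
            have h5 := hcond (hdeg y r hyds hyn hyv hr) (hdeg z s hzds hzn hzv hs) hK hB
            rw [gen _ 2 hM ⟨[y, z], by simp [hyz], rfl, by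
              intro e he
              simp only [List.mem_cons, List.not_mem_nil, or_false] at he
              rcases he with rfl | rfl
              · exact ⟨hyn, hyds⟩
              · exact ⟨hzn, hzds⟩⟩] at h5
            exact absurd h5 (by decide)
          obtain ⟨r, s, hr, hs, h5 | h5⟩ := pair_rec hV.recs h4 hyds hzds (Ne.symm hzy)
          · exact key y z r s hyds hzds (Ne.symm hzy) hyn hzn hr hs h5
          · exact key z y s r hzds hyds hzy hzn hyn hs hr h5
        · -- one near class
          have hyv : y ≠ cls v := by rintro rfl; exact hc hyds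
          obtain ⟨r, hrR, hr⟩ := exists_rec hV.recs hyds
          have hd : r.d ≤ 1 := by
            obtain ⟨es, h5, h6, h7⟩ := hr.hd
            by_contra h8
            rcases es with _ | ⟨e1, _ | ⟨e2, es⟩⟩
            · simp at h6; omega
            · simp at h6; omega
            · have h9 := h7 e1 (by simp)
              have h10 := h7 e2 (by simp)
              have h11 : e1 ≠ e2 := by
                rw [List.nodup_cons] at h5
                intro h; apply h5.1; rw [h]; simp
              rcases hN.two y (cls v) e1 e2 hyn (hN.symm _ _ h9.2.1) (hN.symm _ _ h10.2.1)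
                (Ne.symm hyv) h9.1 h10.1 with h | h | h
              · exact hc (h ▸ h9.2.2)
              · exact hc (h ▸ h10.2.2)
              · exact h11 h
          have hM : ∀ u, r.C.testBit u = true ↔ (u < v ∧ near (cls u) (cls v)) := by
            intro u
            rw [hr.hC]
            constructor
            · rintro ⟨h5, h6⟩; exact ⟨h5, by rw [h6]; exact hyn⟩
            · rintro ⟨h5, h6⟩
              refine ⟨h5, ?_⟩
              by_contra h7
              exact hz ⟨cls u, (hV.mem _).2 ⟨u, h5, rfl⟩, h7, h6⟩
          have hB : Nat.land r.C (2 ^ par v) = 0 := by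
            rw [land_pow_eq_zero, Bool.eq_false_iff]
            intro h; exact hnp ((hM _).1 h).2
          have h5 := h3 r hrR hd hB
          rw [gen _ 1 hM ⟨[y], by simp, rfl, by
            intro e he
            simp only [List.mem_cons, List.not_mem_nil, or_false] at he
            subst he
            exact ⟨hyn, hyds⟩⟩] at h5
          exact absurd h5 (by decide)
      · -- no near class
        have hM : ∀ u, (0 : ℕ).testBit u = true ↔ (u < v ∧ near (cls u) (cls v)) := by
          intro u
          rw [Nat.zero_testBit]
          constructor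
          · intro h; exact absurd h (by decide)
          · rintro ⟨h5, h6⟩
            exact absurd ⟨cls u, (hV.mem _).2 ⟨u, h5, rfl⟩, h6⟩ hy
        have h5 := gen 0 0 hM ⟨[], by simp, rfl, by simp⟩
        rw [map_updN_zero] at h5
        have h6 : Nat.lor 0 (2 ^ v) = 2 ^ v := Nat.zero_or _
        have h7 : Nat.xor (Nat.xor (2 ^ v - 1) (2 ^ par v)) 0 = Nat.xor (2 ^ v - 1) (2 ^ par v) :=
          Nat.xor_zero _
        rw [h6, h7, h2] at h5
        exact absurd h5 (by decide)

theorem valid_one (hN : Near near) : Valid near cls 1 [cls 0] [⟨1, 1, 0⟩] := by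
  refine ⟨by simp, ?_, ?_⟩
  · intro d
    rw [List.mem_singleton]
    constructor
    · rintro rfl; exact ⟨0, by omega, rfl⟩
    · rintro ⟨u, hu, h⟩
      obtain rfl : u = 0 := by omega
      exact h.symm
  · refine List.Forall₂.cons ⟨?_, ?_, ⟨[], by simp, rfl, by simp⟩⟩ List.Forall₂.nil
    · intro u
      show (1 : ℕ).testBit u = true ↔ _
      rw [show (1 : ℕ) = 2 ^ 0 from rfl, testBit_pow, decide_eq_true_eq]
      constructor
      · rintro rfl; exact ⟨by omega, rfl⟩
      · rintro ⟨h, -⟩; omega
    · intro u
      show (1 : ℕ).testBit u = true ↔ _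
      rw [show (1 : ℕ) = 2 ^ 0 from rfl, testBit_pow, decide_eq_true_eq]
      constructor
      · rintro rfl; exact ⟨by omega, hN.refl _⟩
      · rintro ⟨h, -⟩; omega

/-- Soundness of the engine. -/
theorem run_sound (hN : Near near) (hstep : StepOK near cls par n step Inv)
    (hpar : ∀ v, 1 ≤ v → v < n → par v < v ∧ ¬near (cls (par v)) (cls v))
    (plan : List ℕ) (hlen : 1 + plan.length = n)
    (hplan : ∀ (i : ℕ) (h : i < plan.length), plan[i] = par (1 + i)) {a : α} (ha : Inv 1 a) :
    run step plan a = false :=
  search_sound hN hstep hpar plan 1 le_rfl hlen hplan [cls 0] [⟨1, 1, 0⟩] a (valid_one hN) ha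

end

/-! ### The circular near relation -/

/-- near on `ZMod n`: circular distance at most one -/
def cnear (n : ℕ) (x y : ZMod n) : Prop := x = y ∨ x = y + 1 ∨ y = x + 1

theorem near_cnear {n : ℕ} (hn : 5 ≤ n) : Near (cnear n) := by
  have key : ∀ m : ℕ, 0 < m → m < 5 → (m : ZMod n) ≠ 0 := by
    intro m h1 h2 h3
    rw [ZMod.natCast_eq_zero_iff] at h3
    have := Nat.le_of_dvd h1 h3
    omega
  have h1 : (1 : ZMod n) ≠ 0 := by simpa using key 1 (by omega) (by omega)
  have h2 : (2 : ZMod n) ≠ 0 := by simpa using key 2 (by omega) (by omega)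
  have h3 : (3 : ZMod n) ≠ 0 := by simpa using key 3 (by omega) (by omega)
  have h4 : (4 : ZMod n) ≠ 0 := by simpa using key 4 (by omega) (by omega)
  refine ⟨?_, ?_, ?_, ?_, ?_⟩
  · intro x; exact Or.inl rfl
  · rintro x y (h | h | h)
    · exact Or.inl h.symm
    · exact Or.inr (Or.inr h)
    · exact Or.inr (Or.inl h)
  · intro x a b c ha hb hc ha' hb' hc'
    have aux : ∀ t, cnear n x t → t ≠ x → t = x + 1 ∨ t = x - 1 := by
      rintro t (h | h | h) ht
      · exact absurd h.symm ht
      · right; rw [h]; ring
      · left; exact h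
    rcases aux a ha ha' with h5 | h5 <;> rcases aux b hb hb' with h6 | h6 <;>
      rcases aux c hc hc' with h7 | h7 <;> subst h5 <;> subst h6 <;> subst h7 <;> simp
  · intro a b c hab hbc hca
    by_contra hcon
    push Not at hcon
    obtain ⟨n1, n2, n3⟩ := hcon
    have aux : ∀ s t, cnear n s t → s ≠ t → s - t = 1 ∨ s - t = -1 := by
      rintro s t (h | h | h) ht
      · exact absurd h ht
      · left; rw [h]; ring
      · right; rw [h]; ring
    have hsum : (a - b) + (b - c) + (c - a) = 0 := by ring
    rcases aux _ _ hab n1 with h5 | h5 <;> rcases aux _ _ hbc n2 with h6 | h6 <;>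
      rcases aux _ _ hca n3 with h7 | h7 <;> rw [h5, h6, h7] at hsum
    · exact h3 (by linear_combination hsum)
    · exact h1 (by linear_combination hsum)
    · exact h1 (by linear_combination hsum)
    · exact h1 (by linear_combination -hsum)
    · exact h1 (by linear_combination hsum)
    · exact h1 (by linear_combination -hsum)
    · exact h1 (by linear_combination -hsum)
    · exact h3 (by linear_combination -hsum)
  · intro a b c d hab hbc hcd hda
    by_contra hcon
    push Not at hcon
    obtain ⟨n1, n2, n3, n4, n5, n6⟩ := hcon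
    have aux : ∀ s t, cnear n s t → s ≠ t → s = t + 1 ∨ s = t - 1 := by
      rintro s t (h | h | h) ht
      · exact absurd h ht
      · left; exact h
      · right; rw [h]; ring
    -- a, c are both neighbours of b, hence b ± 1; the same for d
    rcases aux a b hab n1 with h5 | h5 <;> rcases aux b c hbc n2 with h6 | h6 <;>
      rcases aux c d hcd n3 with h7 | h7 <;> rcases aux d a hda n4 with h8 | h8 <;>
      first
        | (apply n5; linear_combination h5 + h6)
        | (apply n6; linear_combination h6 + h7)
        | (exfalso; apply h4; linear_combination h5 + h6 + h7 + h8)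
        | (exfalso; apply h4; linear_combination -(h5 + h6 + h7 + h8))
        | (exfalso; apply h2; linear_combination h5 + h6 + h7 + h8)
        | (exfalso; apply h2; linear_combination -(h5 + h6 + h7 + h8))

end Pool.Agent.SA97.Eng
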