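import Pool.Agent.SA97.Eng
import Pool.Agent.SA97.Trees

set_option autoImplicit false

/-! Kernel friendly search for typed induced embeddings of a vertex set of a tree in a rooted tree.

The vertices of the tree `T` are run through in the order `0, 1, 2, ...` (parents first); `m0`, `m1`,
`m2` are the masks of the vertices of `T` which have to go to the root, to an odd depth, to an even
depth at least two. -/

namespace Pool.Agent.SA97.Eng

/-- a vertex of the rooted tree: `b = 2 ^ s`, `N` = mask of its neighbours -/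
structure SV where
  b : ℕ
  N : ℕ

/-- a vertex `t` of the tree: `b = 2 ^ t`, `p = 16 * parent` -/
structure TV where
  b : ℕ
  p : ℕ

/-- `any` with a recursor. -/
noncomputable def anyF {γ : Type} (f : γ → Bool) (l : List γ) : Bool :=
  List.rec (motive := fun _ => Bool) false (fun r _ ih => cond (f r) true ih) l

theorem anyF_of {γ : Type} (f : γ → Bool) (l : List γ) (r : γ) (hr : r ∈ l) (h : f r = true) :
    anyF f l = true := by
  induction l with
  | nil => simp at hr
  | cons x l ih =>
    have h1 : anyF f (x :: l) = cond (f x) true (anyF f l) := rfl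
    rw [h1]
    rw [List.mem_cons] at hr
    rcases hr with rfl | hr
    · rw [h]; rfl
    · rw [ih hr]; cases f x <;> rfl

/-- try all images of a vertex -/
noncomputable def tryF (W sp sh A : ℕ) (k : ℕ → ℕ → Bool) (sv : List SV) : Bool :=
  force (Nat.land (Nat.shiftRight W sp) 65535) (fun q =>
    anyF (fun s => cond (Nat.beq (Nat.land A s.b) 0) (cond (Nat.beq (Nat.land s.N A) q)
      (force (Nat.lor A s.b) (fun A' => force (Nat.lor W (Nat.shiftLeft s.b sh)) (fun W' => k A' W')))
      false) false) sv)

/-- the search for an embedding -/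
noncomputable def emb (sv0 sv1 sv2 : List SV) (m0 m1 m2 : ℕ) (ts : List TV) : ℕ → ℕ → ℕ → Bool :=
  List.rec (motive := fun _ => ℕ → ℕ → ℕ → Bool) (fun _ _ _ => true)
    (fun t _ ih sh A W => force (Nat.add sh 16) (fun sh' =>
      cond (Nat.beq (Nat.land m1 t.b) 0)
        (cond (Nat.beq (Nat.land m2 t.b) 0)
          (cond (Nat.beq (Nat.land m0 t.b) 0) (ih sh' A W)
            (tryF W t.p sh A (fun A' W' => ih sh' A' W') sv0))
          (tryF W t.p sh A (fun A' W' => ih sh' A' W') sv2))
        (tryF W t.p sh A (fun A' W' => ih sh' A' W') sv1))) ts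

theorem emb_cons (sv0 sv1 sv2 : List SV) (m0 m1 m2 : ℕ) (t : TV) (ts : List TV) (sh A W : ℕ) :
    emb sv0 sv1 sv2 m0 m1 m2 (t :: ts) sh A W =
      cond (Nat.beq (Nat.land m1 t.b) 0)
        (cond (Nat.beq (Nat.land m2 t.b) 0)
          (cond (Nat.beq (Nat.land m0 t.b) 0) (emb sv0 sv1 sv2 m0 m1 m2 ts (sh + 16) A W)
            (tryF W t.p sh A (fun A' W' => emb sv0 sv1 sv2 m0 m1 m2 ts (sh + 16) A' W') sv0))
          (tryF W t.p sh A (fun A' W' => emb sv0 sv1 sv2 m0 m1 m2 ts (sh + 16) A' W') sv2))
        (tryF W t.p sh A (fun A' W' => emb sv0 sv1 sv2 m0 m1 m2 ts (sh + 16) A' W') sv1) := by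
  have h : emb sv0 sv1 sv2 m0 m1 m2 (t :: ts) sh A W = force (Nat.add sh 16) (fun sh' =>
      cond (Nat.beq (Nat.land m1 t.b) 0)
        (cond (Nat.beq (Nat.land m2 t.b) 0)
          (cond (Nat.beq (Nat.land m0 t.b) 0) (emb sv0 sv1 sv2 m0 m1 m2 ts sh' A W)
            (tryF W t.p sh A (fun A' W' => emb sv0 sv1 sv2 m0 m1 m2 ts sh' A' W') sv0))
          (tryF W t.p sh A (fun A' W' => emb sv0 sv1 sv2 m0 m1 m2 ts sh' A' W') sv2))
        (tryF W t.p sh A (fun A' W' => emb sv0 sv1 sv2 m0 m1 m2 ts sh' A' W') sv1)) := rfl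
  rw [h, force_eq]

/-- A typed embedding `ψ` of the vertices `< n` of `T` in the masks in `S`. -/
structure Typed (pT pS : List ℕ) (n m0 m1 m2 : ℕ) (sv0 sv1 sv2 : List SV) (ψ : ℕ → ℕ) : Prop where
  lt : ∀ t, ψ t < 16
  inj : ∀ t u, t < n → u < n → (m0.testBit t || m1.testBit t || m2.testBit t) = true →
    (m0.testBit u || m1.testBit u || m2.testBit u) = true → ψ t = ψ u → t = u
  adj : ∀ t u, t < n → u < n → (m0.testBit t || m1.testBit t || m2.testBit t) = true →
    (m0.testBit u || m1.testBit u || m2.testBit u) = true →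
    padj pS (ψ t) (ψ u) = padj pT t u
  r0 : ∀ t, m0.testBit t = true → ∃ s ∈ sv0, s.b = 2 ^ ψ t ∧ ∀ u, s.N.testBit u = padj pS (ψ t) u
  r1 : ∀ t, m1.testBit t = true → ∃ s ∈ sv1, s.b = 2 ^ ψ t ∧ ∀ u, s.N.testBit u = padj pS (ψ t) u
  r2 : ∀ t, m2.testBit t = true → ∃ s ∈ sv2, s.b = 2 ^ ψ t ∧ ∀ u, s.N.testBit u = padj pS (ψ t) u

theorem padj_lt' {p : List ℕ} {a b : ℕ} (h : a < b) : padj p a b = true ↔ a = p.getD b 0 := by
  unfold padj
  rw [Bool.or_eq_true, Bool.and_eq_true, Bool.and_eq_true]
  constructor
  · rintro (⟨-, h2⟩ | ⟨h1, -⟩)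
    · exact (Nat.eq_of_beq_eq_true h2).symm
    · have := Nat.le_of_ble_eq_true h1
      omega
  · intro h1
    left
    exact ⟨Nat.ble_eq_true_of_le h, by rw [← h1]; exact Nat.beq_refl a⟩

/-- The vertices of the tree with parent list `p`. -/
def tvs (n : ℕ) (p : List ℕ) : List TV :=
  (List.range n).map (fun t => ⟨2 ^ t, 16 * (if t = 0 then 15 else p.getD t 0)⟩)

theorem tryF_true {W sp sh A : ℕ} {k : ℕ → ℕ → Bool} {sv : List SV} {s : SV} (hs : s ∈ sv)
    (h1 : Nat.land A s.b = 0)
    (h2 : Nat.land s.N A = Nat.land (Nat.shiftRight W sp) 65535)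
    (h3 : k (Nat.lor A s.b) (Nat.lor W (Nat.shiftLeft s.b sh)) = true) :
    tryF W sp sh A k sv = true := by
  unfold tryF
  rw [force_eq]
  apply anyF_of _ _ s hs
  rw [beq_dec, beq_dec, decide_eq_true h1, decide_eq_true h2, cond_true, cond_true, force_eq,
    force_eq, h3]

theorem emb_true {pT pS : List ℕ} {n m0 m1 m2 : ℕ} {sv0 sv1 sv2 : List SV} {ψ : ℕ → ℕ}
    (hn : n ≤ 15) (_hp : ∀ v, 1 ≤ v → v < n → pT.getD v 0 < v)
    (h : Typed pT pS n m0 m1 m2 sv0 sv1 sv2 ψ) :
    ∀ (j t : ℕ), t + j = n → ∀ (A W : ℕ),
      (∀ u, A.testBit u = true ↔ ∃ t' < t,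
        (m0.testBit t' || m1.testBit t' || m2.testBit t') = true ∧ ψ t' = u) →
      (∀ t' u, u < 16 → (W.testBit (16 * t' + u) = true ↔ (t' < t ∧
        (m0.testBit t' || m1.testBit t' || m2.testBit t') = true ∧ ψ t' = u))) →
      emb sv0 sv1 sv2 m0 m1 m2 ((tvs n pT).drop t) (16 * t) A W = true := by
  intro j
  induction j with
  | zero =>
    intro t ht A W _ _
    have : (tvs n pT).drop t = [] := by
      rw [List.drop_eq_nil_iff]
      unfold tvs
      rw [List.length_map, List.length_range]
      omega
    rw [this]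
    rfl
  | succ j ih =>
    intro t ht A W hA hW
    have htn : t < n := by omega
    have hdrop : (tvs n pT).drop t = (⟨2 ^ t, 16 * (if t = 0 then 15 else pT.getD t 0)⟩ : TV) ::
        (tvs n pT).drop (t + 1) := by
      have hlen : t < (tvs n pT).length := by
        unfold tvs
        rw [List.length_map, List.length_range]
        exact htn
      rw [List.drop_eq_getElem_cons hlen]
      congr 1
      simp only [tvs, List.getElem_map, List.getElem_range]
    rw [hdrop, emb_cons]
    rw [show 16 * t + 16 = 16 * (t + 1) by ring]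
    -- the generic continuation
    have key : ∀ (sv : List SV) (s : SV), s ∈ sv → s.b = 2 ^ ψ t →
        (∀ u, s.N.testBit u = padj pS (ψ t) u) →
        (m0.testBit t || m1.testBit t || m2.testBit t) = true →
        tryF W (16 * (if t = 0 then 15 else pT.getD t 0)) (16 * t) A
          (fun A' W' => emb sv0 sv1 sv2 m0 m1 m2 ((tvs n pT).drop (t + 1)) (16 * (t + 1)) A' W') sv
          = true := by
      intro sv s hs hb hN hin
      refine tryF_true hs ?_ ?_ ?_
      · rw [hb, land_pow_eq_zero, Bool.eq_false_iff]
        intro h1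
        obtain ⟨t', ht', h2, h3⟩ := (hA _).1 h1
        have := h.inj t' t (by omega) htn h2 hin h3
        omega
      · apply Nat.eq_of_testBit_eq
        intro u
        have e1 : (Nat.land s.N A).testBit u = (s.N.testBit u && A.testBit u) :=
          Nat.testBit_and _ _ _
        have e2 : (Nat.land (Nat.shiftRight W (16 * (if t = 0 then 15 else pT.getD t 0))) 65535).testBit u
            = (W.testBit (16 * (if t = 0 then 15 else pT.getD t 0) + u) && decide (u < 16)) := by
          have h1 : (Nat.land (Nat.shiftRight W (16 * (if t = 0 then 15 else pT.getD t 0))) 65535).testBit u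
            = ((W >>> (16 * (if t = 0 then 15 else pT.getD t 0))).testBit u && (2 ^ 16 - 1).testBit u) :=
            Nat.testBit_and _ _ _
          rw [h1, Nat.testBit_shiftRight, Nat.testBit_two_pow_sub_one]
        rw [e1, e2, Bool.eq_iff_iff, Bool.and_eq_true, Bool.and_eq_true, hN, hA, decide_eq_true_eq]
        constructor
        · rintro ⟨h1, t', ht', h2, h3⟩
          have hu : u < 16 := by rw [← h3]; exact h.lt t'
          refine ⟨?_, hu⟩
          rw [hW _ _ hu]
          have h4 : padj pT t' t = true := by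
            rw [← h.adj t' t (by omega) htn h2 hin, padj_comm, h3]; exact h1
          rw [padj_lt' ht'] at h4
          have h5 : t ≠ 0 := by omega
          rw [if_neg h5, ← h4]
          exact ⟨ht', h2, h3⟩
        · rintro ⟨h1, hu⟩
          rw [hW _ _ hu] at h1
          obtain ⟨h2, h3, h4⟩ := h1
          by_cases h5 : t = 0
          · rw [if_pos h5] at h2
            omega
          · rw [if_neg h5] at h2 h3 h4
            refine ⟨?_, _, h2, h3, h4⟩
            rw [← h4, padj_comm, h.adj _ t (by omega) htn h3 hin]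
            exact (padj_lt' h2).2 rfl
      · apply ih (t + 1) (by omega)
        · intro u
          rw [testBit_lor, Bool.or_eq_true, hA, hb, testBit_pow, decide_eq_true_eq]
          constructor
          · rintro (⟨t', h1, h2, h3⟩ | h1)
            · exact ⟨t', by omega, h2, h3⟩
            · exact ⟨t, by omega, hin, h1⟩
          · rintro ⟨t', h1, h2, h3⟩
            by_cases h4 : t' = t
            · subst h4; exact Or.inr h3
            · exact Or.inl ⟨t', by omega, h2, h3⟩
        · intro t' u hu
          have e1 : (Nat.lor W (Nat.shiftLeft s.b (16 * t))).testBit (16 * t' + u) =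
              (W.testBit (16 * t' + u) || (s.b <<< (16 * t)).testBit (16 * t' + u)) :=
            Nat.testBit_or _ _ _
          rw [e1, Bool.or_eq_true, hW _ _ hu, Nat.testBit_shiftLeft, hb, Bool.and_eq_true,
            testBit_pow, decide_eq_true_eq, decide_eq_true_eq]
          have h16 := h.lt t
          constructor
          · rintro (⟨h1, h2, h3⟩ | ⟨h1, h2⟩)
            · exact ⟨by omega, h2, h3⟩
            · have h3 : t' = t := by omega
              subst h3
              exact ⟨by omega, hin, by omega⟩
          · rintro ⟨h1, h2, h3⟩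
            by_cases h4 : t' = t
            · subst h4
              right
              exact ⟨by omega, by omega⟩
            · exact Or.inl ⟨by omega, h2, h3⟩
    rw [beq_zero, beq_zero, beq_zero]
    show (bif decide (Nat.land m1 (2 ^ t) = 0) then (bif decide (Nat.land m2 (2 ^ t) = 0) then
      (bif decide (Nat.land m0 (2 ^ t) = 0) then _ else _) else _) else _) = true
    by_cases h1 : m1.testBit t = true
    · have h1' : ¬ Nat.land m1 (2 ^ t) = 0 := by
        rw [land_pow_eq_zero, h1]; decide
      rw [decide_eq_false h1', cond_false]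
      obtain ⟨s, hs, hb, hN⟩ := h.r1 t h1
      exact key sv1 s hs hb hN (by rw [h1]; simp)
    · have h1' : Nat.land m1 (2 ^ t) = 0 := by
        rw [land_pow_eq_zero, Bool.eq_false_iff]; exact h1
      rw [decide_eq_true h1', cond_true]
      by_cases h2 : m2.testBit t = true
      · have h2' : ¬ Nat.land m2 (2 ^ t) = 0 := by
          rw [land_pow_eq_zero, h2]; decide
        rw [decide_eq_false h2', cond_false]
        obtain ⟨s, hs, hb, hN⟩ := h.r2 t h2
        exact key sv2 s hs hb hN (by rw [h2]; simp)
      · have h2' : Nat.land m2 (2 ^ t) = 0 := by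
          rw [land_pow_eq_zero, Bool.eq_false_iff]; exact h2
        rw [decide_eq_true h2', cond_true]
        by_cases h0 : m0.testBit t = true
        · have h0' : ¬ Nat.land m0 (2 ^ t) = 0 := by
            rw [land_pow_eq_zero, h0]; decide
          rw [decide_eq_false h0', cond_false]
          obtain ⟨s, hs, hb, hN⟩ := h.r0 t h0
          exact key sv0 s hs hb hN (by rw [h0]; simp)
        · have h0' : Nat.land m0 (2 ^ t) = 0 := by
            rw [land_pow_eq_zero, Bool.eq_false_iff]; exact h0
          rw [decide_eq_true h0', cond_true]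
          have hnot : ¬ (m0.testBit t || m1.testBit t || m2.testBit t) = true := by
            simp [h0, h1, h2]
          apply ih (t + 1) (by omega)
          · intro u
            rw [hA]
            constructor
            · rintro ⟨t', h1, h2, h3⟩; exact ⟨t', by omega, h2, h3⟩
            · rintro ⟨t', h1, h5, h3⟩
              refine ⟨t', ?_, h5, h3⟩
              rcases Nat.lt_succ_iff_lt_or_eq.1 h1 with h4 | h4
              · exact h4
              · rw [h4] at h5; exact absurd h5 hnot
          · intro t' u hu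
            rw [hW _ _ hu]
            constructor
            · rintro ⟨h1, h2, h3⟩; exact ⟨by omega, h2, h3⟩
            · rintro ⟨h1, h5, h3⟩
              refine ⟨?_, h5, h3⟩
              rcases Nat.lt_succ_iff_lt_or_eq.1 h1 with h4 | h4
              · exact h4
              · rw [h4] at h5; exact absurd h5 hnot

/-- Soundness: a typed embedding is found. -/
theorem emb_sound {pT pS : List ℕ} {n m0 m1 m2 : ℕ} {sv0 sv1 sv2 : List SV} {ψ : ℕ → ℕ}
    (hn : n ≤ 15) (hp : ∀ v, 1 ≤ v → v < n → pT.getD v 0 < v)
    (h : Typed pT pS n m0 m1 m2 sv0 sv1 sv2 ψ) {ts : List TV} (hts : ts = tvs n pT) :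
    emb sv0 sv1 sv2 m0 m1 m2 ts 0 0 0 = true := by
  have := emb_true hn hp h n 0 (by omega) 0 0 (by intro u; simp) (by intro t' u _; simp)
  rw [hts]
  simpa using this

end Pool.Agent.SA97.Eng
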