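import Pool.Agent.SA97.Steps
import Pool.Agent.SA97.Trees

set_option autoImplicit false

/-! Small trees which are not in the matching host / the tensor host. -/

namespace Pool.Agent.SA97

open SimpleGraph Pool.Agent.SA33 Eng

theorem near_far {n : ℕ} (hn : 5 ≤ n) : Near (fun x y : ZMod n => ¬Far x y) := by
  have h : (fun x y : ZMod n => ¬Far x y) = cnear n := by
    funext x y
    apply propext
    unfold Far cnear
    constructor
    · intro h
      by_contra hcon
      push Not at hcon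
      exact h hcon
    · rintro h ⟨h1, h2, h3⟩
      rcases h with h | h | h
      · exact h1 h
      · exact h2 h
      · exact h3 h
  rw [h]
  exact near_cnear hn

theorem padj_lt {p : List ℕ} {a b : ℕ} (h : a < b) : padj p a b = true ↔ a = p.getD b 0 := by
  unfold padj
  rw [Bool.or_eq_true, Bool.and_eq_true, Bool.and_eq_true]
  constructor
  · rintro (⟨-, h2⟩ | ⟨h1, -⟩)
    · exact (Nat.eq_of_beq_eq_true h2).symm
    · have := Nat.le_of_ble_eq_true h1
      omega
  · intro h1
    left
    refine ⟨?_, by rw [← h1]; exact Nat.beq_refl a⟩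
    exact Nat.ble_eq_true_of_le h

theorem padj_gt {p : List ℕ} {a b : ℕ} (h : b < a) : padj p a b = true ↔ b = p.getD a 0 := by
  rw [padj_comm]; exact padj_lt h

/-- common part: from an embedding with classes to the engine -/
theorem engine_tree {D : Type*} {near : D → D → Prop} (hN : Near near) {n : ℕ} {p : List ℕ}
    (hlen : p.length = n) (hn : 1 ≤ n)
    (hpar : ∀ v, 1 ≤ v → v < n → p.getD v 0 < v) {c : Fin n → D} (d0 : D)
    (hadj : ∀ u v, (tree n p).Adj u v → ¬near (c u) (c v))
    {α : Type} {step : ℕ → ℕ → ℕ → ℕ → List Cl → α → Option α} {Inv : ℕ → α → Prop}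
    (hstep : StepOK near (fun i => if h : i < n then c ⟨i, h⟩ else d0) (fun v => p.getD v 0) n
      step Inv) {a : α} (ha : Inv 1 a) : run step p.tail a = false := by
  refine run_sound hN hstep ?_ p.tail ?_ ?_ ha
  · intro v h1 h2
    have h3 := hpar v h1 h2
    refine ⟨h3, ?_⟩
    have h4 : p.getD v 0 < n := by omega
    simp only [dif_pos h4, dif_pos h2]
    exact hadj _ _ ((padj_lt h3).2 rfl)
  · rw [List.length_tail]; omega
  · intro i hi
    rw [List.getElem_tail]
    rw [List.length_tail] at hi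
    rw [List.getD_eq_getElem _ _ (by omega)]
    congr 1
    omega

theorem xp_iff {D : Type*} {near : D → D → Prop} {n : ℕ} {p : List ℕ} {c : Fin n → D} {d0 : D}
    {u v : ℕ} (hu : u < n) (hv : v < n) (hN : Near near)
    (h : XP near (fun i => if h : i < n then c ⟨i, h⟩ else d0) (fun v => p.getD v 0) u v) :
    ¬near (c ⟨u, hu⟩) (c ⟨v, hv⟩) ∧ ¬(tree n p).Adj ⟨u, hu⟩ ⟨v, hv⟩ := by
  obtain ⟨h1, h2, h3⟩ := h
  simp only [dif_pos hu, dif_pos hv] at h1
  refine ⟨h1, fun h => ?_⟩
  change padj p u v = true at h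
  rcases lt_trichotomy u v with h4 | h4 | h4
  · exact h2 h4 ((padj_lt h4).1 h)
  · subst h4; exact h1 (hN.refl _)
  · exact h3 h4 ((padj_gt h4).1 h)

theorem free_hostM {n k : ℕ} {p : List ℕ} (hk : 3 ≤ k) (hlen : p.length = n) (hn : 1 ≤ n)
    (hpar : ∀ v, 1 ≤ v → v < n → p.getD v 0 < v) (hrun : run stepM p.tail 0 = true) :
    IsEmpty (tree n p ↪g (hostM k).graph) := by
  refine ⟨fun f => ?_⟩
  obtain ⟨c, h1, h2⟩ := hostM_embed f
  have hN : Near (fun x y : ZMod (2 * k - 1) => ¬Far x y) := near_far (by omega)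
  have h3 := engine_tree hN hlen hn hpar (c := c) 0 (fun u v h h' => h' (h1 u v h))
    (stepM_ok hN hpar (by
      intro u v w hu hv hw h4 h5
      obtain ⟨h6, h7⟩ := xp_iff hu hv hN h4
      obtain ⟨h8, h9⟩ := xp_iff hu hw hN h5
      have := h2 _ _ _ (not_not.1 h6) h7 (not_not.1 h8) h9
      exact congrArg Fin.val this))
    (a := 0) (by
      intro u
      rw [Nat.zero_testBit]
      constructor
      · intro h; exact absurd h (by decide)
      · rintro ⟨h4, w, h5, h6⟩
        obtain rfl : u = 0 := by omega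
        obtain rfl : w = 0 := by omega
        exact absurd (hN.refl _) h6.1)
  rw [h3] at hrun
  exact absurd hrun (by decide)

theorem free_hostR {n k : ℕ} {p : List ℕ} (hk : 3 ≤ k) (hlen : p.length = n) (hn : 1 ≤ n)
    (hpar : ∀ v, 1 ≤ v → v < n → p.getD v 0 < v) (hrun : run stepR p.tail [⟨1, 0⟩] = true) :
    IsEmpty (tree n p ↪g (hostR k).graph) := by
  refine ⟨fun f => ?_⟩
  obtain ⟨c, l, h1, h2, h3⟩ := hostR_embed f
  have hN : Near (fun x y : ZMod (2 * k - 1) => ¬Far x y) := near_far (by omega)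
  have h4 := engine_tree hN hlen hn hpar (c := c) 0 (fun u v h h' => h' (h1 u v h).1)
    (stepR_ok (lab := fun i => if h : i < n then l ⟨i, h⟩ else ⟨0, by omega⟩) hN hpar (by
      intro v hv1 hvn
      have h5 := hpar v hv1 hvn
      have h6 : p.getD v 0 < n := by omega
      simp only [dif_pos h6, dif_pos hvn]
      have h7 : (tree n p).Adj ⟨p.getD v 0, h6⟩ ⟨v, hvn⟩ := (padj_lt h5).2 rfl
      exact (h1 _ _ h7).2) (by
      intro u v hu hv h
      obtain ⟨h6, h7⟩ := xp_iff hu hv hN h
      simp only [dif_pos hu, dif_pos hv]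
      exact h2 _ _ (not_not.1 h6) h7) (by
      intro u v hu hv h6 h7
      simp only [dif_pos hu, dif_pos hv] at h6 h7
      exact congrArg Fin.val (h3 _ _ h6 h7)))
    (a := [⟨1, 0⟩]) (by
      intro c hc
      rw [List.mem_singleton] at hc
      subst hc
      refine ⟨⟨(if h : 0 < n then l ⟨0, h⟩ else ⟨0, by omega⟩), fun u hu => ?_⟩, fun w hw => ?_⟩
      · change (1 : ℕ).testBit u = true at hu
        rw [show (1 : ℕ) = 2 ^ 0 from rfl, testBit_pow, decide_eq_true_eq] at hu
        subst hu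
        exact ⟨by omega, rfl⟩
      · change (0 : ℕ).testBit w = true at hw
        rw [Nat.zero_testBit] at hw
        exact absurd hw (by decide))
  rw [h4] at hrun
  exact absurd hrun (by decide)

/-- `S(2,2,2)` -/
abbrev S222 : SimpleGraph (Fin 7) := tree 7 [0, 0, 0, 0, 1, 2, 3]
/-- `S(3,2,1)` -/
abbrev S321 : SimpleGraph (Fin 7) := tree 7 [0, 0, 0, 0, 1, 2, 4]
/-- `S(4,3,1)` -/
abbrev S431 : SimpleGraph (Fin 9) := tree 9 [0, 0, 0, 0, 1, 2, 4, 5, 6]
/-- caterpillar with spine of 5 and leaves at 1, 3, 4, 5 -/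
abbrev N2 : SimpleGraph (Fin 9) := tree 9 [0, 0, 0, 0, 1, 4, 2, 2, 6]

theorem chk {p : List ℕ} {n : ℕ}
    (h : (List.range n).all (fun v => decide (v = 0) || decide (p.getD v 0 < v)) = true) :
    ∀ v, 1 ≤ v → v < n → p.getD v 0 < v := by
  intro v h1 h2
  rw [List.all_eq_true] at h
  have := h v (List.mem_range.2 h2)
  rw [Bool.or_eq_true, decide_eq_true_eq, decide_eq_true_eq] at this
  omega

theorem S222_free {k : ℕ} (hk : 3 ≤ k) : IsEmpty (S222 ↪g (hostM k).graph) :=
  free_hostM hk rfl (by omega) (chk (by decide)) (by decide +kernel)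

theorem S321_free {k : ℕ} (hk : 3 ≤ k) : IsEmpty (S321 ↪g (hostM k).graph) :=
  free_hostM hk rfl (by omega) (chk (by decide)) (by decide +kernel)

theorem S431_free {k : ℕ} (hk : 3 ≤ k) : IsEmpty (S431 ↪g (hostR k).graph) :=
  free_hostR hk rfl (by omega) (chk (by decide)) (by decide +kernel)

theorem N2_free {k : ℕ} (hk : 3 ≤ k) : IsEmpty (N2 ↪g (hostR k).graph) :=
  free_hostR hk rfl (by omega) (chk (by decide)) (by decide +kernel)

end Pool.Agent.SA97
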