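import Pool.Agent.SA33.Edge
import Pool.Agent.SA97.Cls

set_option autoImplicit false

/-! Typed hosts: vertices have a class in `ZMod (2 k - 1)`; vertices of far classes are adjacent
unless they are bad partners, and a vertex has at most one bad partner in every class. -/

namespace Pool.Agent.SA97

open SimpleGraph Pool.Agent.SA33

structure TH (k : ℕ) (V : Type*) where
  cls : V → ZMod (2 * k - 1)
  bad : V → V → Prop
  symm : ∀ x y, bad x y → bad y x
  uniq : ∀ x y z, bad x y → bad x z → cls y = cls z → y = z

namespace TH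

variable {k : ℕ} {V : Type*} (H : TH k V)

def graph : SimpleGraph V where
  Adj x y := Far (H.cls x) (H.cls y) ∧ ¬ H.bad x y
  symm := ⟨fun x y h => ⟨h.1.symm, fun h' => h.2 (H.symm _ _ h')⟩⟩
  loopless := ⟨fun x h => not_far_self _ h.1⟩

theorem noClique (hk : 3 ≤ k) : IsEmpty ((⊤ : SimpleGraph (Fin k)) ↪g H.graph) := by
  classical
  have : NeZero (2 * k - 1) := ⟨by omega⟩
  refine ⟨fun f => ?_⟩
  have hadj : ∀ a b : Fin k, a ≠ b → Far (H.cls (f a)) (H.cls (f b)) := by
    intro a b hab
    have h1 : H.graph.Adj (f a) (f b) := f.map_adj_iff.2 hab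
    exact h1.1
  have hinj : Function.Injective (fun a => H.cls (f a)) := by
    intro a b hab
    by_contra hne
    exact (hadj a b hne).ne hab
  have h1 := far_card (Finset.univ.image (fun a => H.cls (f a))) (by
    intro x hx y hy hxy
    rw [Finset.mem_image] at hx hy
    obtain ⟨a, -, rfl⟩ := hx
    obtain ⟨b, -, rfl⟩ := hy
    exact hadj a b (fun h => hxy (by rw [h]))) (by omega)
  rw [Finset.card_image_of_injective _ hinj, Finset.card_univ, Fintype.card_fin] at h1
  omega

/-- Greedy choice of pairwise adjacent vertices in big classes. -/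
theorem greedy [Finite V] (P : Set V) (s : Finset (ZMod (2 * k - 1))) (hs : s.card ≤ k - 1)
    (hfar : ∀ x ∈ s, ∀ y ∈ s, x ≠ y → Far x y)
    (hbig : ∀ c ∈ s, k - 1 ≤ (P ∩ {v | H.cls v = c}).ncard) :
    ∃ t : Finset V, (∀ x ∈ t, x ∈ P) ∧ H.graph.IsNClique s.card t ∧ t.image H.cls = s := by
  classical
  induction s using Finset.induction_on with
  | empty =>
    refine ⟨∅, by simp, ?_, by simp⟩
    simp
  | insert c s hc ih =>
    rw [Finset.card_insert_of_notMem hc] at hs
    obtain ⟨t, ht1, ht2, ht3⟩ := ih (by omega)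
      (fun x hx y hy => hfar x (Finset.mem_insert_of_mem hx) y (Finset.mem_insert_of_mem hy))
      (fun x hx => hbig x (Finset.mem_insert_of_mem hx))
    let _ : Fintype V := Fintype.ofFinite V
    let A : Finset V := Finset.univ.filter (fun v => v ∈ P ∧ H.cls v = c)
    have hA : k - 1 ≤ A.card := by
      have h1 := hbig c (Finset.mem_insert_self _ _)
      have h2 : (P ∩ {v | H.cls v = c}) = (A : Set V) := by
        ext v; simp [A]
      rw [h2, Set.ncard_coe_finset] at h1
      exact h1
    let E : Finset V := t.biUnion (fun u => A.filter (fun y => H.bad u y))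
    have hE : E.card ≤ t.card := by
      refine (Finset.card_biUnion_le).trans ?_
      have : ∀ u ∈ t, (A.filter (fun y => H.bad u y)).card ≤ 1 := by
        intro u _
        rw [Finset.card_le_one]
        intro y hy z hz
        simp only [A, Finset.mem_filter, Finset.mem_univ, true_and] at hy hz
        exact H.uniq u y z hy.2 hz.2 (hy.1.2.trans hz.1.2.symm)
      refine (Finset.sum_le_sum this).trans ?_
      simp
    have htc : t.card = s.card := ht2.2
    have hex : ∃ y ∈ A, y ∉ E := by
      by_contra hcon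
      push Not at hcon
      have := Finset.card_le_card (show A ⊆ E from hcon)
      omega
    obtain ⟨y, hyA, hyE⟩ := hex
    simp only [A, Finset.mem_filter, Finset.mem_univ, true_and] at hyA
    have hadj : ∀ u ∈ t, H.graph.Adj y u := by
      intro u hu
      have huc : H.cls u ∈ s := by rw [← ht3]; exact Finset.mem_image_of_mem _ hu
      refine ⟨?_, fun hb => ?_⟩
      · rw [hyA.2]
        exact hfar c (Finset.mem_insert_self _ _) _ (Finset.mem_insert_of_mem huc)
          (fun h => hc (h ▸ huc))
      · apply hyE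
        simp only [E, Finset.mem_biUnion, Finset.mem_filter]
        exact ⟨u, hu, by simp [A, hyA], H.symm _ _ hb⟩
    refine ⟨insert y t, ?_, ?_, ?_⟩
    · intro x hx
      rw [Finset.mem_insert] at hx
      rcases hx with rfl | hx
      · exact hyA.1
      · exact ht1 x hx
    · rw [Finset.card_insert_of_notMem hc]
      exact ht2.insert hadj
    · rw [Finset.image_insert, ht3, hyA.2]

/-- The dichotomy for a nonempty `K_(k-1)`-free set of vertices of a host. -/
theorem cases [Finite V] (hk : 3 ≤ k) (P : Set V) (hP : H.graph.CliqueFreeOn P (k - 1)) :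
    (∃ i j : ZMod (2 * k - 1), k - 1 ≤ (P ∩ {v | H.cls v = i}).ncard ∧
      (P ∩ {v | H.cls v = i + 1}).ncard < k - 1 ∧ (P ∩ {v | H.cls v = j}).ncard < k - 1 ∧
      Far i j ∧ Far (i + 1) j) ∨
    (∀ c, (P ∩ {v | H.cls v = c}).ncard < k - 1) := by
  classical
  by_cases hall : ∀ c, (P ∩ {v | H.cls v = c}).ncard < k - 1
  · exact Or.inr hall
  · left
    push Not at hall
    obtain ⟨c0, hc0⟩ := hall
    obtain ⟨i, hi, hi1, j, hj, h1, h2⟩ := exists_path hk
      {c | k - 1 ≤ (P ∩ {v | H.cls v = c}).ncard} ⟨c0, hc0⟩ (by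
        intro s hs hfar
        by_contra hcon
        push Not at hcon
        obtain ⟨s', hs's, hs'c⟩ := Finset.exists_subset_card_eq hcon
        obtain ⟨t, ht1, ht2, -⟩ := H.greedy P s' hs'c.le
          (fun x hx y hy => hfar x (hs's hx) y (hs's hy)) (fun c hc => hs c (hs's hc))
        rw [hs'c] at ht2
        exact hP (fun x hx => ht1 x hx) ht2)
    simp only [Set.mem_setOf_eq, not_le] at hi hi1 hj
    exact ⟨i, j, hi, hi1, hj, h1, h2⟩

end TH

end Pool.Agent.SA97
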