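import Pool.Agent.SA97.Host
import Pool.Agent.SA97.Trees

set_option autoImplicit false

/-! The matching host: the co-edges between far classes form a perfect matching. It is robust for
the tree with root of degree two and two branches of length two. -/

namespace Pool.Agent.SA97

open SimpleGraph Pool.Agent.SA33

/-- The matching host. -/
def hostM (k : ℕ) : TH k (ZMod (2 * k - 1) × ZMod (2 * k - 1) × Fin (2 * k)) where
  cls x := x.1
  bad x y := y = (x.2.1, x.1, x.2.2)
  symm := by
    rintro ⟨a, b, c⟩ ⟨a', b', c'⟩ h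
    simp only [Prod.mk.injEq] at h ⊢
    exact ⟨h.2.1.symm, h.1.symm, h.2.2.symm⟩
  uniq := by
    rintro x y z h1 h2 -
    rw [h1, h2]

/-- Few elements of a small class: a free label. -/
theorem exists_free {N : ℕ} {V : Type*} [Finite V] (P : Set V) (E : Finset (Fin N)) (m : ℕ)
    (g₁ g₂ : Fin N → V) (h₁ : Function.Injective g₁) (h₂ : Function.Injective g₂)
    (c₁ c₂ : Set V) (hc₁ : ∀ a, g₁ a ∈ c₁) (hc₂ : ∀ a, g₂ a ∈ c₂)
    (hm₁ : (P ∩ c₁).ncard ≤ m) (hm₂ : (P ∩ c₂).ncard ≤ m) (hN : E.card + m + m < N) :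
    ∃ a, a ∉ E ∧ g₁ a ∉ P ∧ g₂ a ∉ P := by
  classical
  have key : ∀ (g : Fin N → V) (c : Set V), Function.Injective g → (∀ a, g a ∈ c) →
      (P ∩ c).ncard ≤ m → (Finset.univ.filter (fun a => g a ∈ P)).card ≤ m := by
    intro g c hg hgc hm
    refine le_trans ?_ hm
    rw [← Set.ncard_coe_finset]
    rw [← Set.ncard_image_of_injective _ hg]
    apply Set.ncard_le_ncard _ (Set.toFinite _)
    rintro _ ⟨a, ha, rfl⟩
    simp only [Finset.coe_filter, Finset.mem_univ, true_and, Set.mem_setOf_eq] at ha
    exact ⟨ha, hgc a⟩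
  have k1 := key g₁ c₁ h₁ hc₁ hm₁
  have k2 := key g₂ c₂ h₂ hc₂ hm₂
  by_contra hcon
  push Not at hcon
  have hcov : (Finset.univ : Finset (Fin N)) ⊆ (E ∪ Finset.univ.filter (fun a => g₁ a ∈ P)) ∪
      Finset.univ.filter (fun a => g₂ a ∈ P) := by
    intro a _
    simp only [Finset.mem_union, Finset.mem_filter, Finset.mem_univ, true_and]
    by_cases h1 : a ∈ E
    · exact Or.inl (Or.inl h1)
    · by_cases h2 : g₁ a ∈ P
      · exact Or.inl (Or.inr h2)
      · exact Or.inr (hcon a h1 h2)
  have h3 := Finset.card_le_card hcov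
  have h4 := Finset.card_union_le (E ∪ Finset.univ.filter (fun a => g₁ a ∈ P))
    (Finset.univ.filter (fun a => g₂ a ∈ P))
  have h5 := Finset.card_union_le E (Finset.univ.filter (fun a => g₁ a ∈ P))
  rw [Finset.card_univ, Fintype.card_fin] at h3
  omega

theorem hostM_robust {k : ℕ} (hk : 3 ≤ k) : Robust B22 0 k (hostM k).graph := by
  classical
  have : NeZero (2 * k - 1) := ⟨by omega⟩
  intro P hP hPf
  -- a root in class `i`, and two small classes `j`, `i + 1`
  obtain ⟨i, j, r, hr, hri, hi1, hj, h1, h2⟩ : ∃ (i j : ZMod (2 * k - 1)) (r : _), r ∈ P ∧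
      (hostM k).cls r = i ∧ (P ∩ {v | (hostM k).cls v = i + 1}).ncard < k - 1 ∧
      (P ∩ {v | (hostM k).cls v = j}).ncard < k - 1 ∧ Far i j ∧ Far (i + 1) j := by
    rcases (hostM k).cases hk P hPf with ⟨i, j, hi, hi1, hj, h1, h2⟩ | hall
    · have hne : (P ∩ {v | (hostM k).cls v = i}).Nonempty := by
        rw [← Set.ncard_pos (Set.toFinite _)]; omega
      obtain ⟨r, hr, hri⟩ := hne
      exact ⟨i, j, r, hr, hri, hi1, hj, h1, h2⟩
    · obtain ⟨r, hr⟩ := hP
      obtain ⟨i, hi, -, j, -, h1, h2⟩ := exists_path hk {(hostM k).cls r} ⟨_, rfl⟩ (by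
        intro s hs _
        have : s ⊆ {(hostM k).cls r} := fun x hx => by
          rw [Finset.mem_singleton]; exact hs x hx
        have := Finset.card_le_card this
        rw [Finset.card_singleton] at this
        omega)
      have hi' : i = (hostM k).cls r := hi
      exact ⟨i, j, r, hr, hi'.symm, hall _, hall _, h1, h2⟩
  have hji : i + 1 ≠ i := by
    intro h
    have h3 : ((1 : ℕ) : ZMod (2 * k - 1)) = 0 := by
      have := congrArg (fun z => z - i) h
      simpa using this
    exact natCast_ne_zero' (by omega) (by omega) h3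
  have inj1 : Function.Injective (fun a : Fin (2 * k) => (j, i + 1, a)) := by
    intro a b h; simpa using h
  have inj2 : Function.Injective (fun a : Fin (2 * k) => (i + 1, j, a)) := by
    intro a b h; simpa using h
  obtain ⟨a, -, ha1, ha2⟩ := exists_free P (∅ : Finset (Fin (2 * k))) (k - 2)
    (fun a : Fin (2 * k) => (j, i + 1, a)) (fun a => (i + 1, j, a)) inj1 inj2
    {v | (hostM k).cls v = j} {v | (hostM k).cls v = i + 1} (fun a => rfl) (fun a => rfl)
    (by omega) (by omega) (by simp; omega)
  obtain ⟨b, hb, hb1, hb2⟩ := exists_free P ({a} : Finset (Fin (2 * k))) (k - 2)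
    (fun a : Fin (2 * k) => (j, i + 1, a)) (fun a => (i + 1, j, a)) inj1 inj2
    {v | (hostM k).cls v = j} {v | (hostM k).cls v = i + 1} (fun a => rfl) (fun a => rfl)
    (by omega) (by omega) (by simp; omega)
  rw [Finset.mem_singleton] at hb
  obtain ⟨r1, r2, r3⟩ := r
  change r1 = i at hri
  subst hri
  have nf : ¬ Far r1 (r1 + 1) := not_far_succ r1
  have f12 : Far r1 j := h1
  have f23 : Far j (r1 + 1) := h2.symm
  -- 0 = r, 1 = x1, 2 = x2, 3 = y1, 4 = y2
  obtain ⟨φ, hφ⟩ := embed_of B22 (hostM k).graph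
    ![(r1, r2, r3), (j, r1 + 1, a), (j, r1 + 1, b), (r1 + 1, j, b), (r1 + 1, j, a)] (by
      intro s t hst
      fin_cases s <;> fin_cases t <;> first
        | exact absurd hst (by decide)
        | skip
      · -- 0 1
        simp only [TH.graph, hostM, Fin.zero_eta, Fin.mk_one, Matrix.cons_val_zero, Matrix.cons_val_one]
        refine ⟨fun _ => by decide, fun _ => ⟨f12, ?_⟩⟩
        intro h; simp only [Prod.mk.injEq] at h; exact hji h.2.1
      · -- 0 2
        refine ⟨fun _ => by decide, fun _ => ⟨f12, ?_⟩⟩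
        intro h; change (j, r1 + 1, b) = (r2, r1, r3) at h
        simp only [Prod.mk.injEq] at h; exact hji h.2.1
      · -- 0 3
        exact ⟨fun h => absurd h.1 nf, fun h => absurd h (by decide)⟩
      · -- 0 4
        exact ⟨fun h => absurd h.1 nf, fun h => absurd h (by decide)⟩
      · -- 1 2
        exact ⟨fun h => absurd h.1 (not_far_self _), fun h => absurd h (by decide)⟩
      · -- 1 3
        refine ⟨fun _ => by decide, fun _ => ⟨f23, ?_⟩⟩
        intro h; change (r1 + 1, j, b) = (r1 + 1, j, a) at h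
        simp only [Prod.mk.injEq, true_and] at h
        exact hb h
      · -- 1 4
        exact ⟨fun h => absurd rfl h.2, fun h => absurd h (by decide)⟩
      · -- 2 3
        exact ⟨fun h => absurd rfl h.2, fun h => absurd h (by decide)⟩
      · -- 2 4
        refine ⟨fun _ => by decide, fun _ => ⟨f23, ?_⟩⟩
        intro h; change (r1 + 1, j, a) = (r1 + 1, j, b) at h
        simp only [Prod.mk.injEq, true_and] at h
        exact hb h.symm
      · -- 3 4
        exact ⟨fun h => absurd h.1 (not_far_self _), fun h => absurd h (by decide)⟩)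
    (by
      intro s t hst h
      fin_cases s <;> fin_cases t <;> first
        | exact absurd hst (by decide)
        | skip
      · exact f12.ne (congrArg Prod.fst h)
      · exact f12.ne (congrArg Prod.fst h)
      · exact hji (congrArg Prod.fst h).symm
      · exact hji (congrArg Prod.fst h).symm
      · exact hb (congrArg (fun x => x.2.2) h).symm
      · exact f23.ne (congrArg Prod.fst h)
      · exact f23.ne (congrArg Prod.fst h)
      · exact f23.ne (congrArg Prod.fst h)
      · exact f23.ne (congrArg Prod.fst h)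
      · exact hb (congrArg (fun x => x.2.2) h))
  refine ⟨φ, ?_, ?_⟩
  · rw [hφ]; exact hr
  · intro x hx
    rw [hφ]
    fin_cases x
    · exact absurd rfl hx
    · exact ha1
    · exact hb1
    · exact hb2
    · exact ha2

/-- What an embedding in the matching host gives. -/
theorem hostM_embed {k : ℕ} {n : ℕ} {T : SimpleGraph (Fin n)} (f : T ↪g (hostM k).graph) :
    ∃ c : Fin n → ZMod (2 * k - 1), (∀ u v, T.Adj u v → Far (c u) (c v)) ∧
      ∀ u v w, Far (c u) (c v) → ¬ T.Adj u v → Far (c u) (c w) → ¬ T.Adj u w → v = w := by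
  refine ⟨fun u => (hostM k).cls (f u), fun u v h => (f.map_adj_iff.2 h).1, ?_⟩
  intro u v w h1 h2 h3 h4
  have hv : (hostM k).bad (f u) (f v) := by
    by_contra hcon
    exact h2 (f.map_adj_iff.1 ⟨h1, hcon⟩)
  have hw : (hostM k).bad (f u) (f w) := by
    by_contra hcon
    exact h4 (f.map_adj_iff.1 ⟨h3, hcon⟩)
  exact f.injective (hv.trans hw.symm)

end Pool.Agent.SA97
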