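import Pool.Agent.SA97.HostM

set_option autoImplicit false

/-! The tensor host `D_k × K_N`: vertices of far classes are adjacent unless they have the same
label. It is robust for the tree with root of degree two and branches of lengths one and three. -/

namespace Pool.Agent.SA97

open SimpleGraph Pool.Agent.SA33

/-- The tensor host. -/
def hostR (k : ℕ) : TH k (ZMod (2 * k - 1) × Fin (3 * k)) where
  cls x := x.1
  bad x y := x.2 = y.2
  symm := fun _ _ h => h.symm
  uniq := fun _ _ _ h1 h2 h3 => Prod.ext h3 (h1.symm.trans h2)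

theorem hostR_robust {k : ℕ} (hk : 3 ≤ k) : Robust B31 0 k (hostR k).graph := by
  classical
  have : NeZero (2 * k - 1) := ⟨by omega⟩
  intro P hP hPf
  have inj : ∀ c : ZMod (2 * k - 1), Function.Injective (fun a : Fin (3 * k) => (c, a)) := by
    intro c a b h; simpa using h
  have hcls : ∀ (c : ZMod (2 * k - 1)) (a : Fin (3 * k)),
      ((c, a) : ZMod (2 * k - 1) × Fin (3 * k)) ∈ {v | (hostR k).cls v = c} := fun c a => rfl
  -- the five vertices
  obtain ⟨i, j, l, m, a, b, b', b'', h0, h1, h2, h3, h4, fij, fjl, nil, njm, fml, nim, ljm⟩ :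
      ∃ (i j l m : ZMod (2 * k - 1)) (a b b' b'' : Fin (3 * k)),
        (i, a) ∈ P ∧ (j, b) ∉ P ∧ (j, b') ∉ P ∧ (l, b) ∉ P ∧ (m, b'') ∉ P ∧
        Far i j ∧ Far j l ∧ ¬ Far i l ∧ ¬ Far j m ∧ Far m l ∧
        ((¬ Far i m ∧ i ≠ m) ∨ (b'' = a ∧ i ≠ m)) ∧
        (b ≠ a ∧ b' ≠ a ∧ b' ≠ b ∧ b'' ≠ b ∧ i ≠ l ∧ ((j, b') ≠ (m, b''))) := by
    rcases (hostR k).cases hk P hPf with ⟨i, j, hi, hi1, hj, h1, h2⟩ | hall
    · -- a label `a` with `(i,a) ∈ P`, `(j,a) ∉ P`
      obtain ⟨a, ha1, ha2⟩ : ∃ a, (i, a) ∈ P ∧ (j, a) ∉ P := by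
        by_contra hcon
        push Not at hcon
        have : (P ∩ {v | (hostR k).cls v = i}).ncard ≤ (P ∩ {v | (hostR k).cls v = j}).ncard := by
          apply Set.ncard_le_ncard_of_injOn (fun v => (j, v.2))
          · rintro ⟨c, x⟩ ⟨hx, hc⟩
            change c = i at hc
            subst hc
            exact ⟨hcon x hx, rfl⟩
          · rintro ⟨c, x⟩ ⟨_, hc⟩ ⟨c', x'⟩ ⟨_, hc'⟩ hxx
            change c = i at hc
            change c' = i at hc'
            simp only [Prod.mk.injEq, true_and] at hxx
            rw [hc, hc', hxx]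
        omega
      obtain ⟨b, hb, hb1, hb2⟩ := exists_free P ({a} : Finset (Fin (3 * k))) (k - 2)
        (fun x : Fin (3 * k) => (j, x)) (fun x => (i + 1, x)) (inj j) (inj (i + 1))
        {v | (hostR k).cls v = j} {v | (hostR k).cls v = i + 1} (hcls j) (hcls (i + 1))
        (by omega) (by omega) (by simp; omega)
      obtain ⟨b', hb', hb'1, -⟩ := exists_free P ({a, b} : Finset (Fin (3 * k))) (k - 2)
        (fun x : Fin (3 * k) => (j, x)) (fun x => (i + 1, x)) (inj j) (inj (i + 1))
        {v | (hostR k).cls v = j} {v | (hostR k).cls v = i + 1} (hcls j) (hcls (i + 1))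
        (by omega) (by omega) (by
          have := Finset.card_le_two (a := a) (b := b)
          omega)
      rw [Finset.mem_singleton] at hb
      simp only [Finset.mem_insert, Finset.mem_singleton, not_or] at hb'
      have hii : i ≠ i + 1 := by
        intro h
        have h3 : ((1 : ℕ) : ZMod (2 * k - 1)) = 0 := by
          have := congrArg (fun z => z - i) h
          simpa using this.symm
        exact natCast_ne_zero' (by omega) (by omega) h3
      exact ⟨i, j, i + 1, j, a, b, b', a, ha1, hb1, hb'1, hb2, ha2, h1, h2.symm, not_far_succ i,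
        not_far_self j, h2.symm, Or.inr ⟨rfl, h1.ne⟩,
        hb, hb'.1, hb'.2, fun h => hb h.symm, hii, fun h => hb'.1 (congrArg Prod.snd h)⟩
    · -- all classes small
      obtain ⟨⟨i, a⟩, hia⟩ := hP
      obtain ⟨b, hb, hb1, hb2⟩ := exists_free P ({a} : Finset (Fin (3 * k))) (k - 2)
        (fun x : Fin (3 * k) => (i - 2, x)) (fun x => (i + 1, x)) (inj (i - 2)) (inj (i + 1))
        {v | (hostR k).cls v = i - 2} {v | (hostR k).cls v = i + 1} (hcls _) (hcls _)
        (by have := hall (i - 2); omega) (by have := hall (i + 1); omega) (by simp; omega)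
      obtain ⟨b', hb', hb'1, hb'2⟩ := exists_free P ({a, b} : Finset (Fin (3 * k))) (k - 2)
        (fun x : Fin (3 * k) => (i - 2, x)) (fun x => (i - 1, x)) (inj (i - 2)) (inj (i - 1))
        {v | (hostR k).cls v = i - 2} {v | (hostR k).cls v = i - 1} (hcls _) (hcls _)
        (by have := hall (i - 2); omega) (by have := hall (i - 1); omega) (by
          have := Finset.card_le_two (a := a) (b := b)
          omega)
      rw [Finset.mem_singleton] at hb
      simp only [Finset.mem_insert, Finset.mem_singleton, not_or] at hb'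
      have e1 : i = (i - 2) + ((2 : ℕ) : ZMod (2 * k - 1)) := by push_cast; ring
      have e2 : i + 1 = (i - 2) + ((3 : ℕ) : ZMod (2 * k - 1)) := by push_cast; ring
      have e3 : i - 1 = (i - 2) + 1 := by ring
      have e4 : i + 1 = (i - 1) + ((2 : ℕ) : ZMod (2 * k - 1)) := by push_cast; ring
      have e5 : i = (i - 1) + 1 := by ring
      have f1 : Far (i - 2) i := by
        have := far_add (i - 2) (d := 2) le_rfl (show 2 + 2 ≤ 2 * k - 1 by omega)
        rwa [← e1] at this
      have f2 : Far (i - 2) (i + 1) := by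
        have := far_add (i - 2) (d := 3) (by norm_num) (show 3 + 2 ≤ 2 * k - 1 by omega)
        rwa [← e2] at this
      have f3 : ¬ Far (i - 2) (i - 1) := by
        rw [e3]; exact not_far_succ _
      have f4 : Far (i - 1) (i + 1) := by
        have := far_add (i - 1) (d := 2) le_rfl (show 2 + 2 ≤ 2 * k - 1 by omega)
        rwa [← e4] at this
      have f5 : ¬ Far i (i - 1) := by
        intro h
        have h' := h.symm
        have : ¬ Far (i - 1) ((i - 1) + 1) := not_far_succ _
        rw [← e5] at this
        exact this h'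
      have one_ne : ((1 : ℕ) : ZMod (2 * k - 1)) ≠ 0 := natCast_ne_zero' (by omega) (by omega)
      have hii : i ≠ i + 1 := by
        intro h
        apply one_ne
        have := congrArg (fun z => z - i) h
        simpa using this.symm
      have him : i ≠ i - 1 := by
        intro h
        apply one_ne
        have h6 := congrArg (fun z => i - z) h
        simp at h6
        simpa using h6.symm
      have hjm : i - 2 ≠ i - 1 := by
        intro h
        apply one_ne
        have h6 := congrArg (fun z => z - (i - 2)) h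
        have e6 : i - 1 - (i - 2) = (1 : ZMod (2 * k - 1)) := by ring
        simp only [sub_self, e6] at h6
        simpa using h6.symm
      exact ⟨i, i - 2, i + 1, i - 1, a, b, b', b', hia, hb1, hb'1, hb2, hb'2, f1.symm, f2,
        not_far_succ i, f3, f4, Or.inl ⟨f5, him⟩,
        hb, hb'.1, hb'.2, hb'.2, hii, fun h => hjm (congrArg Prod.fst h)⟩
  obtain ⟨hba, hb'a, hb'b, hb''b, hil, hjm⟩ := ljm
  have him : i ≠ m := by rcases nim with h | h <;> exact h.2
  obtain ⟨φ, hφ⟩ := embed_of B31 (hostR k).graph
    ![(i, a), (j, b), (j, b'), (l, b), (m, b'')] (by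
      intro s t hst
      fin_cases s <;> fin_cases t <;> first
        | exact absurd hst (by decide)
        | skip
      · -- 0 1
        exact ⟨fun _ => by decide, fun _ => ⟨fij, fun h => hba h.symm⟩⟩
      · -- 0 2
        exact ⟨fun _ => by decide, fun _ => ⟨fij, fun h => hb'a h.symm⟩⟩
      · -- 0 3
        exact ⟨fun h => absurd h.1 nil, fun h => absurd h (by decide)⟩
      · -- 0 4
        refine ⟨fun h => ?_, fun h => absurd h (by decide)⟩
        rcases nim with hn | hn
        · exact absurd h.1 hn.1
        · exact absurd hn.1.symm h.2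
      · -- 1 2
        exact ⟨fun h => absurd h.1 (not_far_self _), fun h => absurd h (by decide)⟩
      · -- 1 3
        exact ⟨fun h => absurd rfl h.2, fun h => absurd h (by decide)⟩
      · -- 1 4
        exact ⟨fun h => absurd h.1 njm, fun h => absurd h (by decide)⟩
      · -- 2 3
        exact ⟨fun _ => by decide, fun _ => ⟨fjl, hb'b⟩⟩
      · -- 2 4
        exact ⟨fun h => absurd h.1 njm, fun h => absurd h (by decide)⟩
      · -- 3 4
        exact ⟨fun _ => by decide, fun _ => ⟨fml.symm, fun h => hb''b h.symm⟩⟩)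
    (by
      intro s t hst h
      fin_cases s <;> fin_cases t <;> first
        | exact absurd hst (by decide)
        | skip
      · exact fij.ne (congrArg Prod.fst h)
      · exact fij.ne (congrArg Prod.fst h)
      · exact hil (congrArg Prod.fst h)
      · exact him (congrArg Prod.fst h)
      · exact hb'b (congrArg Prod.snd h).symm
      · exact fjl.ne (congrArg Prod.fst h)
      · exact hb''b (congrArg Prod.snd h).symm
      · exact fjl.ne (congrArg Prod.fst h)
      · exact hjm h
      · exact fml.ne (congrArg Prod.fst h).symm)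
  refine ⟨φ, ?_, ?_⟩
  · rw [hφ]; exact h0
  · intro x hx
    rw [hφ]
    fin_cases x
    · exact absurd rfl hx
    · exact h1
    · exact h2
    · exact h3
    · exact h4

/-- What an embedding in the tensor host gives. -/
theorem hostR_embed {k : ℕ} {n : ℕ} {T : SimpleGraph (Fin n)} (f : T ↪g (hostR k).graph) :
    ∃ (c : Fin n → ZMod (2 * k - 1)) (a : Fin n → Fin (3 * k)),
      (∀ u v, T.Adj u v → Far (c u) (c v) ∧ a u ≠ a v) ∧
      (∀ u v, Far (c u) (c v) → ¬ T.Adj u v → a u = a v) ∧
      ∀ u v, c u = c v → a u = a v → u = v := by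
  refine ⟨fun u => (hostR k).cls (f u), fun u => (f u).2, fun u v h => f.map_adj_iff.2 h, ?_, ?_⟩
  · intro u v h1 h2
    by_contra hcon
    exact h2 (f.map_adj_iff.1 ⟨h1, hcon⟩)
  · intro u v h1 h2
    exact f.injective (Prod.ext h1 h2)

end Pool.Agent.SA97
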