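import Pool.Agent.SA97.Eng
import Pool.Agent.SA97.HostM
import Pool.Agent.SA97.HostR

set_option autoImplicit false

/-! Steps of the engine for the matching host and the tensor host. -/

namespace Pool.Agent.SA97.Eng

/-- `u`, `v` are of far classes and not adjacent in the tree. -/
def XP {D : Type*} (near : D → D → Prop) (cls : ℕ → D) (par : ℕ → ℕ) (u v : ℕ) : Prop :=
  ¬near (cls u) (cls v) ∧ (u < v → u ≠ par v) ∧ (v < u → v ≠ par u)

theorem one_bit {m : ℕ} (h : ∀ u w, m.testBit u = true → m.testBit w = true → u = w) :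
    Nat.land m (Nat.sub m 1) = 0 := by
  by_cases h0 : m = 0
  · subst h0; rfl
  · obtain ⟨i, hi⟩ := Nat.exists_testBit_of_ne_zero h0
    have h1 : m = 2 ^ i := by
      apply Nat.eq_of_testBit_eq
      intro u
      rw [testBit_pow]
      by_cases hu : i = u
      · subst hu; simp [hi]
      · rw [decide_eq_false hu, Bool.eq_false_iff]
        intro h2; exact hu (h _ _ hi h2)
    rw [h1]
    have := Nat.and_two_pow_sub_one_eq_mod (2 ^ i) i
    rw [Nat.mod_self] at this
    exact this

/-! ### Matching -/

/-- matching step: `a` = mask of the matched vertices -/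
noncomputable def stepM (v _bp X _S : ℕ) (_R : List Cl) (a : ℕ) : Option ℕ :=
  cond (Nat.beq X 0) (some a)
    (cond (Nat.beq (Nat.land X (Nat.sub X 1)) 0)
      (cond (Nat.beq (Nat.land X a) 0)
        (force (Nat.lor (Nat.lor a X) (Nat.pow 2 v)) (fun b => some b)) none) none)

theorem stepM_ok {D : Type*} {near : D → D → Prop} (hN : Near near) {cls : ℕ → D} {par : ℕ → ℕ}
    {n : ℕ} (hpar : ∀ v, 1 ≤ v → v < n → par v < v)
    (hm : ∀ u v w, u < n → v < n → w < n → XP near cls par u v → XP near cls par u w → v = w) :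
    StepOK near cls par n stepM
      (fun v a => ∀ u, a.testBit u = true ↔ (u < v ∧ ∃ w < v, XP near cls par u w)) := by
  intro v hv1 hvn ds R a X S hI hV hX hS
  have hXP : ∀ u, X.testBit u = true ↔ (u < v ∧ XP near cls par v u) := by
    intro u
    rw [hX]
    constructor
    · rintro ⟨h1, h2, h3⟩
      exact ⟨h1, fun h => h3 (hN.symm _ _ h), fun h => by omega, fun _ => h2⟩
    · rintro ⟨h1, h2, h3, h4⟩
      exact ⟨h1, h4 h1, fun h => h2 (hN.symm _ _ h)⟩
  have hsymm : ∀ u w, XP near cls par u w → XP near cls par w u :=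
    fun u w h => ⟨fun h' => h.1 (hN.symm _ _ h'), h.2.2, h.2.1⟩
  unfold stepM
  rw [beq_zero, beq_zero, beq_zero, force_eq]
  by_cases h0 : X = 0
  · rw [decide_eq_true h0, cond_true]
    refine ⟨a, rfl, ?_⟩
    intro u
    rw [hI u]
    have hno : ∀ w, w < v → ¬XP near cls par v w := by
      intro w hw h
      have := (hXP w).2 ⟨hw, h⟩
      rw [h0, Nat.zero_testBit] at this
      exact absurd this (by decide)
    constructor
    · rintro ⟨h1, w, h2, h3⟩; exact ⟨by omega, w, by omega, h3⟩
    · rintro ⟨h1, w, h2, h3⟩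
      by_cases hu : u = v
      · subst hu
        by_cases hw : w = u
        · subst hw; exact absurd (hN.refl _) h3.1
        · exact absurd h3 (hno w (by omega))
      · by_cases hw : w = v
        · subst hw; exact absurd (hsymm _ _ h3) (hno u (by omega))
        · exact ⟨by omega, w, by omega, h3⟩
  · rw [decide_eq_false h0, cond_false]
    have h1 : Nat.land X (Nat.sub X 1) = 0 := one_bit (by
      intro u w hu hw
      obtain ⟨h1, h2⟩ := (hXP u).1 hu
      obtain ⟨h3, h4⟩ := (hXP w).1 hw
      exact hm v u w hvn (by omega) (by omega) h2 h4)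
    have h2 : Nat.land X a = 0 := by
      rw [land_eq_zero]
      rintro u ⟨h2, h3⟩
      obtain ⟨h4, h5⟩ := (hXP u).1 h2
      obtain ⟨h6, w, h7, h8⟩ := (hI u).1 h3
      have := hm u v w (by omega) hvn (by omega) (hsymm _ _ h5) h8
      omega
    rw [decide_eq_true h1, cond_true, decide_eq_true h2, cond_true]
    refine ⟨_, rfl, ?_⟩
    intro u
    show (Nat.lor (Nat.lor a X) (2 ^ v)).testBit u = true ↔ _
    rw [testBit_lor, testBit_lor, testBit_pow, Bool.or_eq_true, Bool.or_eq_true, hI u, hXP u,
      decide_eq_true_eq]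
    constructor
    · rintro ((⟨h3, w, h4, h5⟩ | ⟨h3, h4⟩) | h3)
      · exact ⟨by omega, w, by omega, h5⟩
      · exact ⟨by omega, v, by omega, hsymm _ _ h4⟩
      · obtain ⟨w, hw⟩ := Nat.exists_testBit_of_ne_zero h0
        obtain ⟨h4, h5⟩ := (hXP w).1 hw
        subst h3
        exact ⟨by omega, w, by omega, h5⟩
    · rintro ⟨h3, w, h4, h5⟩
      by_cases hu : v = u
      · exact Or.inr hu
      · by_cases hw : w = v
        · subst hw
          exact Or.inl (Or.inr ⟨by omega, hsymm _ _ h5⟩)
        · exact Or.inl (Or.inl ⟨by omega, w, by omega, h5⟩)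

/-! ### Tensor -/

/-- a component: `M` = its vertices, `P` = the parents of its vertices -/
structure Pr where
  M : ℕ
  P : ℕ

/-- merge the components meeting `X`, continuation style -/
noncomputable def merge (X : ℕ) (l : List Pr) : ℕ → ℕ → List Pr → (ℕ → ℕ → List Pr → Option (List Pr)) →
    Option (List Pr) :=
  List.rec (motive := fun _ => ℕ → ℕ → List Pr → (ℕ → ℕ → List Pr → Option (List Pr)) →
      Option (List Pr))
    (fun M P rest k => k M P rest)
    (fun c _ ih M P rest k => cond (Nat.beq (Nat.land c.M X) 0) (ih M P (c :: rest) k)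
      (force (Nat.lor c.M M) (fun M' => force (Nat.lor c.P P) (fun P' => ih M' P' rest k)))) l

noncomputable def stepR (v bp X S : ℕ) (R : List Cl) (a : List Pr) : Option (List Pr) :=
  merge X a (Nat.pow 2 v) bp [] (fun M P rest =>
    cond (Nat.beq (Nat.land M P) 0)
      (cond (Nat.beq (Nat.land S M) 0)
        (cond (allF (fun r => force (Nat.land r.C M) (fun m => Nat.beq (Nat.land m (Nat.sub m 1)) 0)) R)
          (some (⟨M, P⟩ :: rest)) none) none) none)

section
variable {D : Type*} {near : D → D → Prop} {cls : ℕ → D} {par : ℕ → ℕ} {n : ℕ} {A : Type*}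
  {lab : ℕ → A}

/-- a good component -/
def PrOK (lab : ℕ → A) (par : ℕ → ℕ) (v : ℕ) (c : Pr) : Prop :=
  (∃ x, ∀ u, c.M.testBit u = true → u < v ∧ lab u = x) ∧
  ∀ w, c.P.testBit w = true → ∃ u, c.M.testBit u = true ∧ 1 ≤ u ∧ w = par u

theorem merge_ok {v : ℕ} {X : ℕ} {k : ℕ → ℕ → List Pr → Option (List Pr)}
    (hX : ∀ u, X.testBit u = true → lab u = lab v) {Q : List Pr → Prop}
    (hk : ∀ M P rest, (∀ u, M.testBit u = true → u < v + 1 ∧ lab u = lab v) →
      (∀ w, P.testBit w = true → ∃ u, M.testBit u = true ∧ 1 ≤ u ∧ w = par u) →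
      (∀ c ∈ rest, PrOK lab par (v + 1) c) → ∃ a', k M P rest = some a' ∧ Q a') :
    ∀ (l : List Pr) (M P : ℕ) (rest : List Pr), (∀ c ∈ l, PrOK lab par v c) →
      (∀ u, M.testBit u = true → u < v + 1 ∧ lab u = lab v) →
      (∀ w, P.testBit w = true → ∃ u, M.testBit u = true ∧ 1 ≤ u ∧ w = par u) →
      (∀ c ∈ rest, PrOK lab par (v + 1) c) →
      ∃ a', merge X l M P rest k = some a' ∧ Q a' := by
  intro l
  induction l with
  | nil => intro M P rest _ hM hP hr; exact hk M P rest hM hP hr
  | cons c l ih =>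
    intro M P rest hl hM hP hr
    have h : merge X (c :: l) M P rest k = cond (Nat.beq (Nat.land c.M X) 0)
      (merge X l M P (c :: rest) k)
      (force (Nat.lor c.M M) (fun M' => force (Nat.lor c.P P) (fun P' => merge X l M' P' rest k))) := rfl
    rw [h, beq_zero, force_eq, force_eq]
    have hc : PrOK lab par v c := hl c List.mem_cons_self
    have hl' : ∀ c ∈ l, PrOK lab par v c := fun c' hc' => hl c' (List.mem_cons_of_mem _ hc')
    by_cases h0 : Nat.land c.M X = 0
    · rw [decide_eq_true h0, cond_true]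
      refine ih M P (c :: rest) hl' hM hP ?_
      intro c' hc'
      rw [List.mem_cons] at hc'
      rcases hc' with rfl | hc'
      · obtain ⟨⟨x, hx⟩, h2⟩ := hc
        exact ⟨⟨x, fun u hu => ⟨by have := (hx u hu).1; omega, (hx u hu).2⟩⟩, h2⟩
      · exact hr c' hc'
    · rw [decide_eq_false h0, cond_false]
      obtain ⟨⟨x, hx⟩, h2⟩ := hc
      have hxv : x = lab v := by
        rw [land_eq_zero] at h0
        push Not at h0
        obtain ⟨u, h3, h4⟩ := h0
        rw [← (hx u h3).2, hX u h4]
      subst hxv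
      refine ih _ _ rest hl' ?_ ?_ hr
      · intro u hu
        rw [testBit_lor, Bool.or_eq_true] at hu
        rcases hu with hu | hu
        · exact ⟨by have := (hx u hu).1; omega, (hx u hu).2⟩
        · exact hM u hu
      · intro w hw
        rw [testBit_lor, Bool.or_eq_true] at hw
        rcases hw with hw | hw
        · obtain ⟨u, h3, h4⟩ := h2 w hw
          exact ⟨u, by rw [testBit_lor, h3]; rfl, h4⟩
        · obtain ⟨u, h3, h4⟩ := hP w hw
          exact ⟨u, by rw [testBit_lor, h3, Bool.or_true], h4⟩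

theorem stepR_ok (hN : Near near) (hpar : ∀ v, 1 ≤ v → v < n → par v < v)
    (h1 : ∀ v, 1 ≤ v → v < n → lab (par v) ≠ lab v)
    (h2 : ∀ u v, u < n → v < n → XP near cls par u v → lab u = lab v)
    (h3 : ∀ u v, u < n → v < n → cls u = cls v → lab u = lab v → u = v) :
    StepOK near cls par n stepR (fun v a => ∀ c ∈ a, PrOK lab par v c) := by
  intro v hv1 hvn ds R a X S hI hV hX hS
  have hXl : ∀ u, X.testBit u = true → lab u = lab v := by
    intro u hu
    obtain ⟨h4, h5, h6⟩ := (hX u).1 hu
    exact h2 u v (by omega) hvn ⟨h6, fun _ => h5, fun h => by omega⟩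
  have hMv : ∀ u, (2 ^ v).testBit u = true → u < v + 1 ∧ lab u = lab v := by
    intro u hu
    rw [testBit_pow, decide_eq_true_eq] at hu
    subst hu
    exact ⟨by omega, rfl⟩
  refine merge_ok (lab := lab) (par := par) hXl (Q := fun a => ∀ c ∈ a, PrOK lab par (v + 1) c)
    ?_ a (2 ^ v) (2 ^ par v) [] hI hMv ?_ (by simp)
  · intro M P rest hM hP hr
    have e1 : Nat.land M P = 0 := by
      rw [land_eq_zero]
      rintro w ⟨h4, h5⟩
      obtain ⟨u, h6, h7, h8⟩ := hP w h5
      have h9 := hM u h6
      have h10 := hM w h4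
      apply h1 u h7 (by omega)
      rw [← h8, h10.2, h9.2]
    have e2 : Nat.land S M = 0 := by
      rw [land_eq_zero]
      rintro u ⟨h4, h5⟩
      obtain ⟨h6, h7⟩ := (hS u).1 h4
      have := h3 u v (by omega) hvn h7 (hM u h5).2
      omega
    have e3 : allF (fun r : Cl => force (Nat.land r.C M)
        (fun m => Nat.beq (Nat.land m (Nat.sub m 1)) 0)) R = true := by
      rw [allF_eq]
      intro r hr
      rw [force_eq, beq_zero, decide_eq_true_eq]
      apply one_bit
      intro u w hu hw
      have hu' : r.C.testBit u = true ∧ M.testBit u = true := by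
        have := Nat.testBit_and r.C M u
        rw [show (r.C &&& M).testBit u = (Nat.land r.C M).testBit u from rfl, hu] at this
        simpa using this.symm
      have hw' : r.C.testBit w = true ∧ M.testBit w = true := by
        have := Nat.testBit_and r.C M w
        rw [show (r.C &&& M).testBit w = (Nat.land r.C M).testBit w from rfl, hw] at this
        simpa using this.symm
      obtain ⟨d, hd⟩ : ∃ d, Rec near cls v ds d r := by
        have := hV.recs
        rw [List.forall₂_iff_get] at this
        obtain ⟨i, hi⟩ := List.mem_iff_get.1 hr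
        refine ⟨ds.get ⟨i, by have := i.2; omega⟩, ?_⟩
        rw [← hi]
        exact this.2 i (by have := i.2; omega) i.2
      have h4 := (hd.hC u).1 hu'.1
      have h5 := (hd.hC w).1 hw'.1
      exact h3 u w (by omega) (by omega) (h4.2.trans h5.2.symm)
        ((hM u hu'.2).2.trans (hM w hw'.2).2.symm)
    rw [beq_zero, beq_zero, decide_eq_true e1, decide_eq_true e2, e3]
    refine ⟨_, rfl, ?_⟩
    intro c hc
    rw [List.mem_cons] at hc
    rcases hc with rfl | hc
    · exact ⟨⟨lab v, hM⟩, hP⟩
    · exact hr c hc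
  · intro w hw
    rw [testBit_pow, decide_eq_true_eq] at hw
    subst hw
    refine ⟨v, ?_, hv1, rfl⟩
    rw [testBit_pow]; simp

end

end Pool.Agent.SA97.Eng
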